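import Pool.Agent.Q294.BRW.Ext

/-!
# The number of fixed points
-/

set_option autoImplicit false

namespace Q294.Branch

open MeasureTheory ProbabilityTheory Filter Topology Cardinal
open scoped ENNReal

universe u

variable {X : Type u}

namespace BRW

variable {b : BRW X}

theorem mk_FG_le [Countable X] (S : Set (X → ℝ)) : #S ≤ 𝔠 := by
  calc #S ≤ #(X → ℝ) := Cardinal.mk_set_le S
    _ = lift.{u} #ℝ ^ lift.{0} #X := Cardinal.mk_arrow X ℝ
    _ = 𝔠 ^ lift.{0} #X := by rw [Cardinal.mk_real, Cardinal.lift_continuum]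
    _ ≤ 𝔠 ^ ℵ₀ := by
        refine Cardinal.power_le_power_left Cardinal.continuum_ne_zero ?_
        rw [Cardinal.lift_le_aleph0]
        exact Cardinal.mk_le_aleph0
    _ = 𝔠 := Cardinal.continuum_power_aleph0

theorem le_mk_of_surj {S : Set (X → ℝ)} {c d : ℝ} (hcd : c < d) (x0 : X)
    (h : ∀ a ∈ Set.Icc c d, ∃ w ∈ S, w x0 = a) : 𝔠 ≤ #S := by
  classical
  choose! f hf1 hf2 using h
  let g : Set.Icc c d → S := fun a => ⟨f a, hf1 a a.2⟩
  have hg : Function.Injective g := by
    intro a a' haa
    have h1 : f a = f a' := congrArg Subtype.val haa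
    have h2 : f a x0 = f a' x0 := by rw [h1]
    rw [hf2 a a.2, hf2 a' a'.2] at h2
    exact Subtype.ext h2
  have h3 := Cardinal.mk_le_of_injective (f := fun a : ULift.{u} (Set.Icc c d) => g a.down)
    (hg.comp ULift.down_injective)
  rw [Cardinal.mk_uLift, Cardinal.mk_Icc_real hcd, Cardinal.lift_continuum] at h3
  exact h3

/-- **Dichotomy for the fixed points.** For an irreducible branching random walk the generating
function has at most the two fixed points `q̄` and `1`, or as many fixed points as there are real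
numbers. -/
theorem FG_dichotomy [Countable X] (hb : b.Irreducible) :
    b.FG = {b.qbar, fun _ => 1} ∨ #b.FG = 𝔠 := by
  by_cases h : b.FG = {b.qbar, fun _ => 1}
  · exact Or.inl h
  · right
    obtain ⟨z, hz, hzq, hz1⟩ : ∃ z ∈ b.FG, z ≠ b.qbar ∧ z ≠ fun _ => 1 := by
      by_contra hcon
      push Not at hcon
      apply h
      ext z
      simp only [Set.mem_insert_iff, Set.mem_singleton_iff]
      constructor
      · intro hzF
        by_cases hq : z = b.qbar
        · exact Or.inl hq
        · exact Or.inr (hcon z hzF hq)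
      · rintro (rfl | rfl)
        · exact qbar_mem
        · exact one_mem
    obtain ⟨x0, hx0⟩ : ∃ x, z x ≠ b.qbar x := by
      by_contra hcon
      push Not at hcon
      exact hzq (funext hcon)
    have hq : ∀ x, b.qbar x ≤ z x := qbar_le (fun x => (hz.1 x).1) (fun x => (hz.1 x).2)
      fun x => (congrFun hz.2 x).le
    have hlt : b.qbar x0 < z x0 := lt_of_le_of_ne (hq x0) (Ne.symm hx0)
    refine le_antisymm (mk_FG_le _) (le_mk_of_surj hlt x0 fun a ha => ?_)
    obtain ⟨w, hw, -, -, hwa⟩ := exists_fixed_of_ne_one hb hz hz1 x0 ha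
    exact ⟨w, hw, hwa⟩

theorem qbar_eq_q [Countable X] : b.qbar = fun x => b.q x Set.univ :=
  funext fun x => (b.q_univ x).symm

end BRW

end Q294.Branch
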