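import Mathlib

/-!
# Discrete-time branching random walks

Definitions: branching random walk (BRW), its canonical construction from independent offspring
variables, extinction probability vectors, the generating function and its fixed points.
-/

set_option autoImplicit false

namespace Q294.Branch

open MeasureTheory Filter

/-- Configurations of finitely many particles on `X`: `f y` is the number of particles at `y`. They
form a countable set if `X` is countable, and every set of configurations is measurable. -/
instance instMeasurableSpaceConfig {X : Type*} : MeasurableSpace (X →₀ ℕ) := ⊤

/-- A discrete-time branching random walk on `X`: for every site `x` a probability measure `law x`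
on the configurations, the law of the offspring of a particle at `x`. -/
structure BRW (X : Type*) where
  /-- the offspring laws -/
  law : X → PMF (X →₀ ℕ)

variable {X : Type*}

/-- The next generation: the `i`-th particle at `y` (for `i < h y`) is replaced by the configuration
`ξ (y, i)`. -/
noncomputable def next (h : X →₀ ℕ) (ξ : X × ℕ → (X →₀ ℕ)) : X →₀ ℕ :=
  h.sum fun y k => ∑ i ∈ Finset.range k, ξ (y, i)

/-- The population at time `n`, started with one particle at `x`, if `ω n (y, i)` is the offspring
of the `i`-th particle at `y` at time `n`. -/
noncomputable def pop (x : X) : ℕ → (ℕ → X × ℕ → (X →₀ ℕ)) → (X →₀ ℕ)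
  | 0, _ => Finsupp.single x 1
  | n + 1, ω => next (pop x n ω) (ω n)

namespace BRW

/-- The law of the offspring variables of one generation: independent, and the offspring of a
particle at `y` has law `law y`. -/
noncomputable def noise (b : BRW X) : Measure (X × ℕ → (X →₀ ℕ)) :=
  Measure.infinitePi fun p => (b.law p.1).toMeasure

/-- The law of all offspring variables: independent over the generations. -/
noncomputable def prob (b : BRW X) : Measure (ℕ → X × ℕ → (X →₀ ℕ)) :=
  Measure.infinitePi fun _ => b.noise

/-- `q x A`: the probability that the process started with one particle at `x` goes extinct in `A`,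
that is, from some time on no particle is in `A`. -/
noncomputable def q (b : BRW X) (x : X) (A : Set X) : ℝ :=
  b.prob.real {ω | ∀ᶠ n in atTop, ∀ y ∈ A, pop x n ω y = 0}

/-- The generating function `G(z)(x) = ∑_f μ_x(f) ∏_y z(y)^{f(y)}`. -/
noncomputable def G (b : BRW X) (z : X → ℝ) (x : X) : ℝ :=
  ∑' f : X →₀ ℕ, (b.law x f).toReal * f.prod fun y k => z y ^ k

/-- The set of the fixed points of the generating function in `[0, 1]^X`. -/
def FG (b : BRW X) : Set (X → ℝ) := {z | (∀ x, z x ∈ Set.Icc (0 : ℝ) 1) ∧ b.G z = z}

/-- The set of the extinction probability vectors. -/
def EG (b : BRW X) : Set (X → ℝ) := Set.range fun (A : Set X) (x : X) => b.q x A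

/-- The mean number of children at `y` of a particle at `x`. -/
noncomputable def mean (b : BRW X) (x y : X) : ENNReal := ∑' f : X →₀ ℕ, b.law x f * (f y : ENNReal)

/-- Irreducibility: for all `x`, `y` there is a finite path from `x` to `y` along which the mean
numbers of children are positive. -/
def Irreducible (b : BRW X) : Prop :=
  ∀ x y : X, Relation.ReflTransGen (fun u v => 0 < b.mean u v) x y

/-- The process is non-singular: it is not the case that every particle has exactly one child
almost surely. -/
def NonSingular (b : BRW X) : Prop :=
  ∃ x : X, ∃ f : X →₀ ℕ, b.law x f ≠ 0 ∧ (f.sum fun _ k => k) ≠ 1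

end BRW

end Q294.Branch
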