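import Pool.Agent.Q294.BRW.Defs

/-!
# Quasi-transitive branching random walks
-/

set_option autoImplicit false

namespace Q294.Branch

namespace BRW

variable {X : Type*}

/-- `γ` is an automorphism of the branching random walk: `μ_{γ x}(f ∘ γ⁻¹) = μ_x(f)` for all `x`
and `f`. -/
def IsAut (b : BRW X) (γ : Equiv.Perm X) : Prop :=
  ∀ (x : X) (f : X →₀ ℕ), b.law (γ x) (Finsupp.equivMapDomain γ f) = b.law x f

/-- The automorphisms act with finitely many orbits. -/
def QuasiTransitive (b : BRW X) : Prop :=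
  ∃ F : Finset X, ∀ x : X, ∃ y ∈ F, ∃ γ : Equiv.Perm X, b.IsAut γ ∧ γ y = x

end BRW

end Q294.Branch
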