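import Pool.Agent.Q294.BRW.Tools

/-!
# Deviations from a default offspring configuration
-/

set_option autoImplicit false

namespace Q294.Branch

open MeasureTheory ProbabilityTheory Filter Topology
open scoped ENNReal

variable {X : Type*}

namespace BRW

/-- At time `n` some particle has an offspring configuration other than the default one. -/
def dev (d : X → (X →₀ ℕ)) (x : X) (n : ℕ) : Set (Om X) :=
  {ω | ∃ p ∈ cells (pop x n ω), ω n p ≠ d p.1}

open Classical in
/-- `1` if the configuration is not the default one. -/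
noncomputable def isDev (d f : X →₀ ℕ) : ℝ≥0∞ := if f = d then 0 else 1

/-- The number of particles with a deviation. -/
noncomputable def devFun (d : X → (X →₀ ℕ)) (h : X →₀ ℕ) (ξ : X × ℕ → (X →₀ ℕ)) : ℝ≥0∞ :=
  ∑ p ∈ cells h, isDev (d p.1) (ξ p)

theorem measurable_isDev [Countable X] (d : X → (X →₀ ℕ)) (p : X × ℕ) :
    Measurable fun ξ : X × ℕ → (X →₀ ℕ) => isDev (d p.1) (ξ p) := by
  have h : Measurable (isDev (d p.1)) := Measurable.of_discrete
  exact h.comp (measurable_pi_apply p)

theorem measurable_devFun [Countable X] (d : X → (X →₀ ℕ)) (h : X →₀ ℕ) :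
    Measurable (devFun d h) :=
  Finset.measurable_fun_sum _ fun p _ => measurable_isDev d p

theorem one_le_devFun {d : X → (X →₀ ℕ)} {x : X} {n : ℕ} {ω : Om X} (h : ω ∈ dev d x n) :
    1 ≤ devFun d (pop x n ω) (ω n) := by
  obtain ⟨p, hp, hne⟩ := h
  have h1 : isDev (d p.1) (ω n p) = 1 := if_neg hne
  rw [← h1]
  exact Finset.single_le_sum (f := fun p => isDev (d p.1) (ω n p)) (fun _ _ => zero_le) hp

theorem measurable_step [Countable X] (Φ : (X →₀ ℕ) → (X × ℕ → (X →₀ ℕ)) → ℝ≥0∞)
    (hΦ : ∀ h, Measurable (Φ h)) (x : X) (n : ℕ) :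
    Measurable fun ω : Om X => Φ (pop x n ω) (ω n) := by
  have h0 : Measurable fun p : (X →₀ ℕ) × (X × ℕ → (X →₀ ℕ)) => Φ p.1 p.2 :=
    measurable_from_prod_countable_right hΦ
  have h5 : Measurable fun ω : Om X => (pop x n ω, ω n) :=
    (measurable_pop x n).prodMk (measurable_pi_apply n)
  exact h0.comp h5

variable (b : BRW X)

theorem prob_dev_le [Countable X] {d : X → (X →₀ ℕ)} {ε : X → ℝ≥0∞}
    (hε : ∀ y, ∑' f, b.law y f * isDev (d y) f ≤ ε y) (x : X) (n : ℕ) :
    b.prob (dev d x n) ≤ ∫⁻ ω, pair (pop x n ω) ε ∂b.prob := by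
  have h1 := lintegral_step b (measurable_pop x n) (past_pop x n) (W := fun _ => 1)
    measurable_const (fun _ _ _ => rfl) (measurable_devFun d)
  simp only [one_mul] at h1
  have hm := measurable_step (devFun d) (measurable_devFun d) x n
  have h2 : b.prob (dev d x n) ≤ ∫⁻ ω, devFun d (pop x n ω) (ω n) ∂b.prob := by
    have h3 := mul_meas_ge_le_lintegral (μ := b.prob) hm 1
    rw [one_mul] at h3
    exact (measure_mono fun ω hω => one_le_devFun hω).trans h3
  refine h2.trans ?_
  rw [h1]
  refine lintegral_mono fun ω => ?_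
  unfold devFun
  rw [lintegral_finsetSum _ fun p _ => measurable_isDev d p, pair_eq_sum_cells]
  refine Finset.sum_le_sum fun p _ => ?_
  rw [b.lintegral_coord p (isDev (d p.1))]
  exact hε p.1

/-- A weight with `M v + ε ≤ v` bounds the expected total number of deviations. -/
theorem tsum_dev_le [Countable X] {ε v : X → ℝ≥0∞} (hv : ∀ y, b.M v y + ε y ≤ v y) (x : X) :
    ∑' n, ∫⁻ ω, pair (pop x n ω) ε ∂b.prob ≤ v x := by
  refine ENNReal.tsum_le_of_sum_range_le fun N => ?_
  have key : ∀ N, ∑ n ∈ Finset.range N, ∫⁻ ω, pair (pop x n ω) ε ∂b.prob +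
      ∫⁻ ω, pair (pop x N ω) v ∂b.prob ≤ v x := by
    intro N
    induction N with
    | zero =>
      have : ∀ ω : Om X, pair (pop x 0 ω) v = v x := fun ω => pair_single v x
      simp [this]
    | succ N ih =>
      rw [Finset.sum_range_succ, lintegral_pair_pop, add_assoc]
      refine le_trans ?_ ih
      gcongr
      have hm : Measurable fun ω : Om X => pair (pop x N ω) ε :=
        (measurable_pair ε).comp (measurable_pop x N)
      rw [← lintegral_add_left hm]
      refine lintegral_mono fun ω => ?_
      rw [← pair_add_right]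
      refine pair_mono _ fun y => ?_
      rw [add_comm]
      exact hv y
  exact le_self_add.trans (key N)

/-- Without deviation the next generation is deterministic. -/
theorem pop_succ_of_not_dev {d : X → (X →₀ ℕ)} {x : X} {n : ℕ} {ω : Om X} (h : ω ∉ dev d x n) :
    pop x (n + 1) ω = ∑ p ∈ cells (pop x n ω), d p.1 := by
  show next (pop x n ω) (ω n) = _
  rw [next_eq_sum]
  refine Finset.sum_congr rfl fun p hp => ?_
  by_contra hne
  exact h ⟨p, hp, hne⟩

end BRW

end Q294.Branch
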