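import Pool.Agent.Q294.BRW.Fix

/-!
# Intermediate fixed points of the generating function of a branching random walk
-/

set_option autoImplicit false

namespace Q294.Branch

open MeasureTheory Filter Topology

variable {X : Type*}

namespace BRW

variable {b : BRW X}

/-- The boundary values on the segment between the minimal fixed point and `z`. -/
noncomputable def seg (b : BRW X) (z : X → ℝ) (t : ℝ) (x : X) : ℝ := (1 - t) * b.qbar x + t * z x

theorem seg_nonneg {z : X → ℝ} (hz : ∀ x, 0 ≤ z x) {t : ℝ} (ht : t ∈ Set.Icc (0 : ℝ) 1) (x : X) :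
    0 ≤ b.seg z t x :=
  add_nonneg (mul_nonneg (by linarith [ht.2]) (qbar_nonneg x)) (mul_nonneg ht.1 (hz x))

theorem seg_le {z : X → ℝ} (hq : ∀ x, b.qbar x ≤ z x) {t : ℝ} (ht : t ∈ Set.Icc (0 : ℝ) 1) (x : X) :
    b.seg z t x ≤ z x := by
  unfold seg
  have := mul_le_mul_of_nonneg_left (hq x) (show 0 ≤ 1 - t by linarith [ht.2])
  linarith

theorem le_seg {z : X → ℝ} (hq : ∀ x, b.qbar x ≤ z x) {t : ℝ} (ht : t ∈ Set.Icc (0 : ℝ) 1) (x : X) :
    b.qbar x ≤ b.seg z t x := by
  unfold seg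
  have := mul_le_mul_of_nonneg_left (hq x) ht.1
  linarith

theorem NMC_seg {z : X → ℝ} (hz : ∀ x, 0 ≤ z x) (hq : ∀ x, b.qbar x ≤ z x) (x : X) :
    NMC (Set.Icc (0 : ℝ) 1) fun t => b.seg z t x := by
  refine ⟨⟨convex_Icc 0 1, fun s _ t _ α β hα hβ hαβ => ?_⟩, fun s _ t _ hst => ?_,
    fun t ht => seg_nonneg hz ht x⟩
  · simp only [seg, smul_eq_mul]
    have : β = 1 - α := by linarith
    subst this
    nlinarith
  · simp only [seg]
    nlinarith [hq x]

theorem NMC_it (K : Set X) {z : X → ℝ} (hz : ∀ x, 0 ≤ z x) (hz1 : ∀ x, z x ≤ 1)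
    (hq : ∀ x, b.qbar x ≤ z x) (k : ℕ) (x : X) :
    NMC (Set.Icc (0 : ℝ) 1) fun t => b.it K (b.seg z t) k x := by
  induction k generalizing x with
  | zero =>
    unfold it
    by_cases h : x ∈ K
    · simp only [if_pos h]
      exact NMC.const (convex_Icc 0 1) le_rfl
    · simp only [if_neg h]
      exact NMC_seg hz hq x
  | succ k ih =>
    unfold it
    by_cases h : x ∈ K
    · simp only [if_pos h]
      exact b.NMC_G (convex_Icc 0 1) ih (fun t ht x =>
        it_le_one (seg_nonneg hz ht) (fun y => (seg_le hq ht y).trans (hz1 y)) k x) x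
    · simp only [if_neg h]
      exact NMC_seg hz hq x

theorem continuousOn_it (K : Set X) {z : X → ℝ} (hz : ∀ x, 0 ≤ z x) (hz1 : ∀ x, z x ≤ 1)
    (hq : ∀ x, b.qbar x ≤ z x) (k : ℕ) (x : X) :
    ContinuousOn (fun t => b.it K (b.seg z t) k x) (Set.Icc (0 : ℝ) 1) := by
  have hseg : ∀ x, ContinuousOn (fun t => b.seg z t x) (Set.Icc (0 : ℝ) 1) := by
    intro x
    unfold seg
    fun_prop
  induction k generalizing x with
  | zero =>
    unfold it
    by_cases h : x ∈ K
    · simp only [if_pos h]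
      exact continuousOn_const
    · simp only [if_neg h]
      exact hseg x
  | succ k ih =>
    unfold it
    by_cases h : x ∈ K
    · simp only [if_pos h]
      rw [continuousOn_iff_continuous_domRestrict]
      rw [continuous_iff_continuousAt]
      intro t
      refine b.G_tendsto (z := fun (t : Set.Icc (0 : ℝ) 1) y => b.it K (b.seg z t) k y)
        (fun t y => it_nonneg (seg_nonneg hz t.2) k y)
        (fun t y => it_le_one (seg_nonneg hz t.2) (fun y => (seg_le hq t.2 y).trans (hz1 y)) k y)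
        (fun y => ?_) x
      exact (continuousOn_iff_continuous_domRestrict.1 (ih y)).continuousAt
    · simp only [if_neg h]
      exact hseg x

/-- Intermediate values on a set `K` on which the minimal solution with boundary values `z` is
`z`. -/
theorem exists_param (K : Set X) {z : X → ℝ} (hz : ∀ x, 0 ≤ z x) (hz1 : ∀ x, z x ≤ 1)
    (hq : ∀ x, b.qbar x ≤ z x) (x0 : X) (hT : b.T K z x0 = z x0) {a : ℝ}
    (ha : a ∈ Set.Icc (b.qbar x0) (z x0)) :
    ∃ t ∈ Set.Icc (0 : ℝ) 1, b.T K (b.seg z t) x0 = a := by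
  set φ : ℝ → ℝ := fun t => b.T K (b.seg z t) x0 with hφ
  have hs0 : b.seg z 0 = b.qbar := by funext x; simp [seg]
  have hs1 : b.seg z 1 = z := by funext x; simp [seg]
  have hφ0 : φ 0 = b.qbar x0 := by
    simp only [hφ, hs0]
    rw [T_qbar]
  have hφ1 : φ 1 = z x0 := by
    simp only [hφ, hs1]
    exact hT
  have hsle : ∀ t ∈ Set.Icc (0 : ℝ) 1, ∀ y, b.seg z t y ≤ 1 := fun t ht y =>
    (seg_le hq ht y).trans (hz1 y)
  -- the sublevel set is closed
  set S : Set ℝ := {t | t ∈ Set.Icc (0 : ℝ) 1 ∧ φ t ≤ a} with hS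
  have hSeq : S = ⋂ k, {t | t ∈ Set.Icc (0 : ℝ) 1 ∧ b.it K (b.seg z t) k x0 ∈ Set.Iic a} := by
    ext t
    simp only [hS, Set.mem_iInter, Set.mem_ofPred_eq, Set.mem_Iic]
    constructor
    · intro h k
      exact ⟨h.1, (it_le_T (seg_nonneg hz h.1) (hsle t h.1) k x0).trans h.2⟩
    · intro h
      exact ⟨(h 0).1, ciSup_le fun k => (h k).2⟩
  have hSclosed : IsClosed S := by
    rw [hSeq]
    refine isClosed_iInter fun k => ?_
    exact (continuousOn_it K hz hz1 hq k x0).preimage_isClosed_of_isClosed isClosed_Icc isClosed_Iic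
  have hScompact : IsCompact S :=
    isCompact_Icc.of_isClosed_subset hSclosed fun t ht => ht.1
  have h0S : (0 : ℝ) ∈ S := ⟨⟨le_rfl, zero_le_one⟩, by rw [hφ0]; exact ha.1⟩
  obtain ⟨t, htS, htmax⟩ := hScompact.exists_isGreatest ⟨0, h0S⟩
  refine ⟨t, htS.1, ?_⟩
  by_contra hne
  have hlt : φ t < a := lt_of_le_of_ne htS.2 hne
  have hlt1 : φ t < φ 1 := by rw [hφ1]; exact hlt.trans_le ha.2
  have ht1 : t < 1 := by
    refine lt_of_le_of_ne htS.1.2 fun h => ?_
    rw [h] at hlt1
    exact lt_irrefl _ hlt1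
  set δ : ℝ := (a - φ t) / (φ 1 - φ t) with hδ
  have hδ0 : 0 < δ := div_pos (by linarith) (by linarith)
  have hδ1 : δ ≤ 1 := by
    rw [hδ, div_le_one (by linarith)]
    have := ha.2
    rw [hφ1]; linarith
  set t' : ℝ := (1 - δ) * t + δ * 1 with ht'
  have ht'I : t' ∈ Set.Icc (0 : ℝ) 1 := by
    constructor
    · have := htS.1.1
      have h2 : 0 ≤ 1 - δ := by linarith
      positivity
    · have := mul_le_mul_of_nonneg_left ht1.le (show 0 ≤ 1 - δ by linarith)
      rw [ht']; linarith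
  have hconv : φ t' ≤ (1 - δ) * φ t + δ * φ 1 := by
    refine ciSup_le fun k => ?_
    have hc := (NMC_it (b := b) K hz hz1 hq k x0).convex.2 htS.1
      (show (1 : ℝ) ∈ Set.Icc (0 : ℝ) 1 from ⟨zero_le_one, le_rfl⟩)
      (show (0 : ℝ) ≤ 1 - δ by linarith) hδ0.le (by ring)
    simp only [smul_eq_mul] at hc
    refine hc.trans (add_le_add ?_ ?_)
    · exact mul_le_mul_of_nonneg_left (it_le_T (seg_nonneg hz htS.1) (hsle t htS.1) k x0)
        (by linarith)
    · exact mul_le_mul_of_nonneg_left (it_le_T (seg_nonneg hz ⟨zero_le_one, le_rfl⟩)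
        (hsle 1 ⟨zero_le_one, le_rfl⟩) k x0) hδ0.le
  have heq : (1 - δ) * φ t + δ * φ 1 = a := by
    have hpos : φ 1 - φ t ≠ 0 := by linarith
    rw [hδ]
    field_simp
    ring
  have ht'S : t' ∈ S := ⟨ht'I, by rw [heq] at hconv; exact hconv⟩
  have := htmax ht'S
  rw [ht'] at this
  nlinarith

/-- If for all large finite sets `K` the minimal solution on `K` with boundary values `z` is `z`, then
every value between `q̄(x0)` and `z(x0)` is taken at `x0` by a fixed point between `q̄` and `z`. -/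
theorem exists_fixed {z : X → ℝ} (hzF : z ∈ b.FG) (x0 : X)
    (hT : ∀ᶠ K : Finset X in atTop, b.T (K : Set X) z x0 = z x0) {a : ℝ}
    (ha : a ∈ Set.Icc (b.qbar x0) (z x0)) :
    ∃ w ∈ b.FG, (∀ x, b.qbar x ≤ w x) ∧ (∀ x, w x ≤ z x) ∧ w x0 = a := by
  classical
  have hz : ∀ x, 0 ≤ z x := fun x => (hzF.1 x).1
  have hz1 : ∀ x, z x ≤ 1 := fun x => (hzF.1 x).2
  have hq : ∀ x, b.qbar x ≤ z x := qbar_le hz hz1 fun x => (congrFun hzF.2 x).le
  -- choose solutions on finite sets
  have hex : ∀ K : Finset X, ∃ w : X → ℝ, (∀ x, b.qbar x ≤ w x) ∧ (∀ x, w x ≤ z x) ∧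
      (∀ x ∈ K, b.G w x = w x) ∧ (b.T (K : Set X) z x0 = z x0 → w x0 = a) := by
    intro K
    by_cases h : b.T (K : Set X) z x0 = z x0
    · obtain ⟨t, ht, hta⟩ := exists_param (K : Set X) hz hz1 hq x0 h ha
      have hs0 := seg_nonneg (b := b) hz ht
      have hs1 : ∀ y, b.seg z t y ≤ 1 := fun y => (seg_le hq ht y).trans (hz1 y)
      refine ⟨b.T (K : Set X) (b.seg z t), fun x => ?_, fun x => ?_, fun x hx => ?_, fun _ => hta⟩
      · -- `q̄ = T q̄ ≤ T s`
        have h2 : b.qbar x = b.T (K : Set X) b.qbar x := by rw [T_qbar]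
        rw [h2]
        refine T_le qbar_nonneg (T_nonneg hs0 hs1) (T_le_one hs0 hs1) (fun y hy => ?_)
          (fun y hy => ?_) x
        · rw [T_off y hy]; exact le_seg hq ht y
        · exact (T_on hs0 hs1 y hy).le
      · exact T_le hs0 hz hz1 (fun y _ => seg_le hq ht y) (fun y _ => (congrFun hzF.2 y).le) x
      · exact T_on hs0 hs1 x hx
    · exact ⟨z, hq, fun _ => le_rfl, fun x _ => congrFun hzF.2 x, fun h' => absurd h' h⟩
  choose W hW1 hW2 hW3 hW4 using hex
  -- a limit along an ultrafilter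
  let U : Ultrafilter (Finset X) := Ultrafilter.of atTop
  have hU : (U : Filter (Finset X)) ≤ atTop := Ultrafilter.of_le _
  have hlim : ∀ x, ∃ y, Tendsto (fun K => W K x) U (𝓝 y) := by
    intro x
    have hc : IsCompact (Set.Icc (b.qbar x) (z x)) := isCompact_Icc
    have hmem : Set.Icc (b.qbar x) (z x) ∈ (U.map fun K => W K x) := by
      rw [Ultrafilter.mem_map]
      exact Filter.univ_mem' fun K => ⟨hW1 K x, hW2 K x⟩
    obtain ⟨y, -, hy⟩ := hc.ultrafilter_le_nhds (U.map fun K => W K x)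
      (Filter.le_principal_iff.2 hmem)
    exact ⟨y, hy⟩
  choose w hw using hlim
  have hWz : ∀ K x, 0 ≤ W K x := fun K x => (qbar_nonneg x).trans (hW1 K x)
  have hW1' : ∀ K x, W K x ≤ 1 := fun K x => (hW2 K x).trans (hz1 x)
  have hwq : ∀ x, b.qbar x ≤ w x := fun x => ge_of_tendsto (hw x) (Eventually.of_forall fun K => hW1 K x)
  have hwz : ∀ x, w x ≤ z x := fun x => le_of_tendsto (hw x) (Eventually.of_forall fun K => hW2 K x)
  refine ⟨w, ⟨fun x => ⟨(qbar_nonneg x).trans (hwq x), (hwz x).trans (hz1 x)⟩, ?_⟩, hwq, hwz, ?_⟩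
  · funext x
    have h1 := b.G_tendsto hWz hW1' hw x
    have h2 : Tendsto (fun K => b.G (W K) x) U (𝓝 (w x)) := by
      refine (hw x).congr' ?_
      have : ∀ᶠ K : Finset X in atTop, x ∈ K := by
        filter_upwards [eventually_ge_atTop {x}] with K hK
        exact hK (Finset.mem_singleton_self x)
      exact (this.filter_mono hU).mono fun K hK => (hW3 K x hK).symm
    exact tendsto_nhds_unique h1 h2
  · have h3 : ∀ᶠ K in (U : Filter (Finset X)), W K x0 = a := (hT.filter_mono hU).mono fun K hK => hW4 K hK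
    exact tendsto_nhds_unique (hw x0) ((tendsto_const_nhds (x := a)).congr' (h3.mono fun K hK => hK.symm))

/-- A fixed point that is `1` at one site is `1` everywhere. -/
theorem lt_one_of_ne_one (hb : b.Irreducible) {z : X → ℝ} (hzF : z ∈ b.FG) (hne : z ≠ fun _ => 1)
    (x : X) : z x < 1 := by
  refine lt_of_le_of_ne (hzF.1 x).2 fun h => hne ?_
  funext y
  exact b.eq_one_of_irreducible hb (fun x => (hzF.1 x).1) (fun x => (hzF.1 x).2)
    (fun x hx => by rw [congrFun hzF.2 x, hx]) h y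

/-- **Intermediate fixed points.** Let the branching random walk be irreducible, and let `z ≠ 1` be
a fixed point of `G`. Then every value between `q̄(x0)` and `z(x0)` is taken at `x0` by a fixed point
between `q̄` and `z`. -/
theorem exists_fixed_of_ne_one (hb : b.Irreducible) {z : X → ℝ} (hzF : z ∈ b.FG)
    (hne : z ≠ fun _ => 1) (x0 : X) {a : ℝ} (ha : a ∈ Set.Icc (b.qbar x0) (z x0)) :
    ∃ w ∈ b.FG, (∀ x, b.qbar x ≤ w x) ∧ (∀ x, w x ≤ z x) ∧ w x0 = a := by
  classical
  have hz : ∀ x, 0 ≤ z x := fun x => (hzF.1 x).1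
  have hz1 : ∀ x, z x ≤ 1 := fun x => (hzF.1 x).2
  have hq : ∀ x, b.qbar x ≤ z x := qbar_le hz hz1 fun x => (congrFun hzF.2 x).le
  have hzlt := lt_one_of_ne_one hb hzF hne
  by_cases hall : ∀ K : Finset X, b.T (K : Set X) z = z
  · exact exists_fixed hzF x0 (Eventually.of_forall fun K => congrFun (hall K) x0) ha
  · push Not at hall
    obtain ⟨K, hK⟩ := hall
    have hTle : ∀ x, b.T (K : Set X) z x ≤ z x :=
      T_le hz hz hz1 (fun _ _ => le_rfl) (fun x _ => (congrFun hzF.2 x).le)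
    obtain ⟨hKall, -⟩ := segment hb K (T_nonneg hz hz1) hTle hzlt hK
      (fun x hx => T_off x hx) (fun x hx => T_on hz hz1 x hx) (fun x _ => congrFun hzF.2 x)
    -- the space is finite
    by_cases hqz : b.qbar = z
    · have hae : a = z x0 := le_antisymm ha.2 (by rw [← hqz]; exact ha.1)
      exact ⟨z, hzF, hq, fun _ => le_rfl, hae.symm⟩
    · obtain ⟨-, hseg⟩ := segment hb K qbar_nonneg hq hzlt hqz
        (fun x hx => absurd (hKall x) hx) (fun x _ => congrFun G_qbar x)
        (fun x _ => congrFun hzF.2 x)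
      -- a parameter
      have hfix : ∀ t ∈ Set.Icc (0 : ℝ) 1, (fun x => b.qbar x + t * (z x - b.qbar x)) ∈ b.FG := by
        intro t ht
        refine ⟨fun x => ⟨?_, ?_⟩, hseg t ht⟩
        · have := mul_nonneg ht.1 (sub_nonneg.2 (hq x))
          linarith [qbar_nonneg (b := b) x]
        · have := mul_le_mul_of_nonneg_right ht.2 (sub_nonneg.2 (hq x))
          linarith [hz1 x]
      by_cases hx0 : b.qbar x0 = z x0
      · have hae : a = z x0 := le_antisymm ha.2 (by rw [← hx0]; exact ha.1)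
        exact ⟨z, hzF, hq, fun _ => le_rfl, hae.symm⟩
      · have hpos : 0 < z x0 - b.qbar x0 := sub_pos.2 (lt_of_le_of_ne (hq x0) hx0)
        set t : ℝ := (a - b.qbar x0) / (z x0 - b.qbar x0) with ht
        have htI : t ∈ Set.Icc (0 : ℝ) 1 :=
          ⟨div_nonneg (by linarith [ha.1]) hpos.le, by
            rw [ht, div_le_one hpos]; linarith [ha.2]⟩
        refine ⟨_, hfix t htI, fun x => ?_, fun x => ?_, ?_⟩
        · have := mul_nonneg htI.1 (sub_nonneg.2 (hq x))
          linarith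
        · have := mul_le_mul_of_nonneg_right htI.2 (sub_nonneg.2 (hq x))
          linarith
        · rw [ht]
          field_simp
          ring

end BRW

end Q294.Branch
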