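import Pool.Agent.Q294.BRW.Prob
import Pool.Agent.Q294.BRW.Interval

/-!
# Extinction probability vectors are fixed points
-/

set_option autoImplicit false

namespace Q294.Branch

open MeasureTheory ProbabilityTheory Filter Topology
open scoped ENNReal

variable {X : Type*}

open Classical in
/-- The indicator function of the complement of `A`. -/
noncomputable def ind (A : Set X) (y : X) : ℝ := if y ∈ A then 0 else 1

theorem ind_nonneg (A : Set X) (y : X) : 0 ≤ ind A y := by
  unfold ind; split_ifs; exacts [le_rfl, zero_le_one]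

theorem ind_le_one (A : Set X) (y : X) : ind A y ≤ 1 := by
  unfold ind; split_ifs; exacts [zero_le_one, le_rfl]

open Classical in
theorem emon_ind (A : Set X) (h : X →₀ ℕ) :
    emon (ind A) h = if ∀ y ∈ A, h y = 0 then 1 else 0 := by
  unfold emon mon
  split_ifs with hA
  · have : (h.prod fun y k => ind A y ^ k) = 1 := by
      refine Finset.prod_eq_one fun y _ => ?_
      show ind A y ^ h y = 1
      by_cases hy : y ∈ A
      · rw [hA y hy, pow_zero]
      · unfold ind; rw [if_neg hy, one_pow]
    rw [this, ENNReal.ofReal_one]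
  · push Not at hA
    obtain ⟨y, hy, hy0⟩ := hA
    have : (h.prod fun y k => ind A y ^ k) = 0 := by
      refine Finset.prod_eq_zero (Finsupp.mem_support_iff.2 hy0) ?_
      show ind A y ^ h y = 0
      unfold ind; rw [if_pos hy, zero_pow hy0]
    rw [this, ENNReal.ofReal_zero]

namespace BRW

variable (b : BRW X)

/-- The killed generating function. -/
noncomputable def Gk (A : Set X) (v : X → ℝ) (y : X) : ℝ := ind A y * b.G v y

theorem Gk_nonneg (A : Set X) {v : X → ℝ} (hv : ∀ x, 0 ≤ v x) (x : X) : 0 ≤ b.Gk A v x :=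
  mul_nonneg (ind_nonneg A x) (b.G_nonneg hv x)

theorem Gk_le_one (A : Set X) {v : X → ℝ} (hv : ∀ x, 0 ≤ v x) (h1 : ∀ x, v x ≤ 1) (x : X) :
    b.Gk A v x ≤ 1 :=
  mul_le_one₀ (ind_le_one A x) (b.G_nonneg hv x) (b.G_le_one hv h1 x)

/-- Iterates of the killed generating function at `1`. -/
noncomputable def ki (A : Set X) (k : ℕ) : X → ℝ := (b.Gk A)^[k] fun _ => 1

theorem ki_succ (A : Set X) (k : ℕ) : b.ki A (k + 1) = b.Gk A (b.ki A k) := by
  unfold ki; rw [Function.iterate_succ_apply']

theorem ki_nonneg (A : Set X) (k : ℕ) (x : X) : 0 ≤ b.ki A k x := by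
  induction k generalizing x with
  | zero => exact zero_le_one
  | succ k ih => unfold ki; rw [Function.iterate_succ_apply']; exact b.Gk_nonneg A ih x

theorem ki_le_one (A : Set X) (k : ℕ) (x : X) : b.ki A k x ≤ 1 := by
  induction k generalizing x with
  | zero => exact le_rfl
  | succ k ih =>
    unfold ki; rw [Function.iterate_succ_apply']; exact b.Gk_le_one A (b.ki_nonneg A k) ih x

theorem ki_succ_le (A : Set X) (k : ℕ) (x : X) : b.ki A (k + 1) x ≤ b.ki A k x := by
  induction k generalizing x with
  | zero => exact b.ki_le_one A 1 x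
  | succ k ih =>
    rw [ki_succ b A (k + 1)]
    conv_rhs => rw [ki_succ b A k]
    exact mul_le_mul_of_nonneg_left (b.G_mono (b.ki_nonneg A (k + 1)) ih (b.ki_le_one A k) x)
      (ind_nonneg A x)

theorem ki_antitone (A : Set X) (x : X) : Antitone fun k => b.ki A k x :=
  antitone_nat_of_succ_le fun k => b.ki_succ_le A k x

/-- The probability of never visiting `A`. -/
noncomputable def never (A : Set X) (x : X) : ℝ := ⨅ k, b.ki A k x

theorem bdd_ki (A : Set X) (x : X) : BddBelow (Set.range fun k => b.ki A k x) :=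
  ⟨0, by rintro _ ⟨k, rfl⟩; exact b.ki_nonneg A k x⟩

theorem tendsto_ki (A : Set X) (x : X) : Tendsto (fun k => b.ki A k x) atTop (𝓝 (b.never A x)) :=
  tendsto_atTop_ciInf (b.ki_antitone A x) (b.bdd_ki A x)

theorem never_nonneg (A : Set X) (x : X) : 0 ≤ b.never A x :=
  le_ciInf fun k => b.ki_nonneg A k x

theorem never_le_one (A : Set X) (x : X) : b.never A x ≤ 1 :=
  (ciInf_le (b.bdd_ki A x) 0).trans (b.ki_le_one A 0 x)

theorem iter_tendsto {ι : Type*} {l : Filter ι} {z : ι → X → ℝ} {w : X → ℝ}
    (hz : ∀ i x, 0 ≤ z i x) (hz1 : ∀ i x, z i x ≤ 1) (h : ∀ x, Tendsto (fun i => z i x) l (𝓝 (w x)))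
    (n : ℕ) (x : X) : Tendsto (fun i => b.G^[n] (z i) x) l (𝓝 (b.G^[n] w x)) := by
  induction n generalizing x with
  | zero => exact h x
  | succ n ih =>
    simp only [Function.iterate_succ_apply']
    exact b.G_tendsto (fun i => b.iter_nonneg (hz i) n) (fun i => b.iter_le_one (hz i) (hz1 i) n)
      ih x

/-- The event that there is no particle in `A` at the times `n, …, n + k - 1`. -/
def quiet (x : X) (A : Set X) (n k : ℕ) : Set (Om X) :=
  {ω | ∀ j < k, ∀ y ∈ A, pop x (n + j) ω y = 0}

/-- The event that there is no particle in `A` from time `n` on. -/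
def quietFrom (x : X) (A : Set X) (n : ℕ) : Set (Om X) :=
  {ω | ∀ m ≥ n, ∀ y ∈ A, pop x m ω y = 0}

variable {b}

theorem quietFrom_eq (x : X) (A : Set X) (n : ℕ) : quietFrom x A n = ⋂ k, quiet x A n k := by
  ext ω
  simp only [quietFrom, quiet, Set.mem_iInter, Set.mem_ofPred_eq]
  constructor
  · intro h k j _ y hy
    exact h (n + j) (Nat.le_add_right _ _) y hy
  · intro h m hm y hy
    have := h (m - n + 1) (m - n) (Nat.lt_succ_self _) y hy
    rwa [Nat.add_sub_cancel' hm] at this

theorem measurable_quiet [Countable X] (x : X) (A : Set X) (n k : ℕ) :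
    MeasurableSet (quiet x A n k) := by
  have : quiet x A n k = ⋂ j, ⋂ (_ : j < k), (pop x (n + j)) ⁻¹' {h | ∀ y ∈ A, h y = 0} := by
    ext ω; simp [quiet]
  rw [this]
  exact MeasurableSet.iInter fun j => MeasurableSet.iInter fun _ =>
    (measurable_pop x (n + j)) (MeasurableSet.of_discrete)

theorem measurable_quietFrom [Countable X] (x : X) (A : Set X) (n : ℕ) :
    MeasurableSet (quietFrom x A n) := by
  rw [quietFrom_eq]
  exact MeasurableSet.iInter fun k => measurable_quiet x A n k

variable (b)

theorem lintegral_quiet [Countable X] (A : Set X) (x : X) (n k : ℕ) {v : X → ℝ}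
    (hv : ∀ x, 0 ≤ v x) (h1 : ∀ x, v x ≤ 1) :
    ∫⁻ ω, (∏ j ∈ Finset.range k, emon (ind A) (pop x (n + j) ω)) * emon v (pop x (n + k) ω) ∂b.prob =
      ENNReal.ofReal (b.G^[n] ((b.Gk A)^[k] v) x) := by
  induction k generalizing v with
  | zero =>
    simp only [Finset.range_zero, Finset.prod_empty, one_mul, add_zero, Function.iterate_zero, id]
    exact b.lintegral_emon hv h1 x n
  | succ k ih =>
    have h := b.lintegral_emon_pop hv h1 x (n + k)
      (W := fun ω => ∏ j ∈ Finset.range (k + 1), emon (ind A) (pop x (n + j) ω))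
      (Finset.measurable_fun_prod _ fun j _ => (measurable_emon _).comp (measurable_pop x _))
      (fun ω ω' hω => Finset.prod_congr rfl fun j hj => by
        have hj' : j < k + 1 := Finset.mem_range.1 hj
        rw [(past_pop x (n + j)).mono (show n + j ≤ n + k by omega) ω ω' hω])
    rw [show n + (k + 1) = n + k + 1 from rfl, h]
    have h3 : ∀ ω : Om X, (∏ j ∈ Finset.range (k + 1), emon (ind A) (pop x (n + j) ω)) *
        emon (b.G v) (pop x (n + k) ω) =
        (∏ j ∈ Finset.range k, emon (ind A) (pop x (n + j) ω)) *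
          emon (b.Gk A v) (pop x (n + k) ω) := by
      intro ω
      rw [Finset.prod_range_succ, mul_assoc]
      congr 1
      unfold emon
      rw [← ENNReal.ofReal_mul (mon_nonneg (ind_nonneg A) _), ← mon_mul]
      rfl
    simp only [h3]
    rw [ih (b.Gk_nonneg A hv) (b.Gk_le_one A hv h1), Function.iterate_succ_apply]

theorem prob_quiet [Countable X] (A : Set X) (x : X) (n k : ℕ) :
    b.prob (quiet x A n k) = ENNReal.ofReal (b.G^[n] (b.ki A k) x) := by
  classical
  have h := b.lintegral_quiet A x n k (v := fun _ => 1) (fun _ => zero_le_one) (fun _ => le_rfl)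
  have h2 : ∀ ω : Om X, (∏ j ∈ Finset.range k, emon (ind A) (pop x (n + j) ω)) *
      emon (fun _ => 1) (pop x (n + k) ω) = (quiet x A n k).indicator (fun _ => 1) ω := by
    intro ω
    have h3 : emon (fun _ => 1) (pop x (n + k) ω) = 1 := by
      unfold emon; rw [mon_one, ENNReal.ofReal_one]
    rw [h3, mul_one]
    simp only [emon_ind]
    rw [Finset.prod_ite_zero, Finset.prod_const_one, Set.indicator_apply]
    simp only [quiet, Set.mem_ofPred_eq, Finset.mem_range]
    congr
  simp only [h2] at h
  rw [lintegral_indicator (measurable_quiet x A n k)] at h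
  simpa [ki] using h

theorem prob_quietFrom [Countable X] (A : Set X) (x : X) (n : ℕ) :
    b.prob (quietFrom x A n) = ENNReal.ofReal (b.G^[n] (b.never A) x) := by
  have hanti : Antitone fun k => quiet x A n k := by
    intro k l hkl ω hω j hj
    exact hω j (hj.trans_le hkl)
  have h1 : Tendsto (fun k => b.prob (quiet x A n k)) atTop (𝓝 (b.prob (quietFrom x A n))) := by
    rw [quietFrom_eq]
    exact tendsto_measure_iInter_atTop (fun k => (measurable_quiet x A n k).nullMeasurableSet)
      hanti ⟨0, measure_ne_top _ _⟩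
  simp only [prob_quiet] at h1
  have h2 := (b.iter_tendsto (b.ki_nonneg A) (b.ki_le_one A) (b.tendsto_ki A) n x)
  exact tendsto_nhds_unique h1 (ENNReal.tendsto_ofReal h2)

theorem q_eq [Countable X] (A : Set X) (x : X) :
    Tendsto (fun n => b.G^[n] (b.never A) x) atTop (𝓝 (b.q x A)) := by
  have hmono : Monotone fun n => quietFrom x A n := by
    intro k l hkl ω hω m hm
    exact hω m (hkl.trans hm)
  have hU : {ω : Om X | ∀ᶠ n in atTop, ∀ y ∈ A, pop x n ω y = 0} = ⋃ n, quietFrom x A n := by
    ext ω
    simp only [quietFrom, Set.mem_iUnion, Set.mem_ofPred_eq, eventually_atTop]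
  have h1 : Tendsto (fun n => b.prob (quietFrom x A n)) atTop
      (𝓝 (b.prob {ω : Om X | ∀ᶠ n in atTop, ∀ y ∈ A, pop x n ω y = 0})) := by
    rw [hU]
    exact tendsto_measure_iUnion_atTop hmono
  have h2 := (ENNReal.tendsto_toReal (measure_ne_top b.prob _)).comp h1
  have h3 : ∀ n, (b.prob (quietFrom x A n)).toReal = b.G^[n] (b.never A) x := by
    intro n
    rw [prob_quietFrom, ENNReal.toReal_ofReal (b.iter_nonneg (b.never_nonneg A) n x)]
  have h4 : (ENNReal.toReal ∘ fun n => b.prob (quietFrom x A n)) =
      fun n => b.G^[n] (b.never A) x := funext h3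
  rw [h4] at h2
  exact h2

theorem q_nonneg (A : Set X) (x : X) : 0 ≤ b.q x A := measureReal_nonneg

theorem q_le_one (A : Set X) (x : X) : b.q x A ≤ 1 := measureReal_le_one

/-- Extinction probability vectors are fixed points of `G`. -/
theorem q_mem_FG [Countable X] (A : Set X) : (fun x => b.q x A) ∈ b.FG := by
  refine ⟨fun x => ⟨b.q_nonneg A x, b.q_le_one A x⟩, ?_⟩
  funext x
  have h1 := b.G_tendsto (z := fun n => b.G^[n] (b.never A))
    (fun n => b.iter_nonneg (b.never_nonneg A) n)
    (fun n => b.iter_le_one (b.never_nonneg A) (b.never_le_one A) n) (fun x => b.q_eq A x) x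
  have h2 := (b.q_eq A x).comp (tendsto_add_atTop_nat 1)
  have h3 : ((fun n => b.G^[n] (b.never A) x) ∘ fun a => a + 1) =
      fun n => b.G (b.G^[n] (b.never A)) x := by
    funext n
    simp only [Function.comp_apply, Function.iterate_succ_apply']
  rw [h3] at h2
  exact tendsto_nhds_unique h1 h2

theorem EG_subset_FG [Countable X] : b.EG ⊆ b.FG := by
  rintro _ ⟨A, rfl⟩
  exact b.q_mem_FG A

theorem q_empty (x : X) : b.q x ∅ = 1 := by
  unfold q
  simp

/-- The probability of global extinction is the minimal fixed point. -/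
theorem q_univ [Countable X] (x : X) : b.q x Set.univ = b.qbar x := by
  have hk : b.never Set.univ = fun _ => 0 := by
    funext y
    refine le_antisymm ?_ (b.never_nonneg _ y)
    refine (ciInf_le (b.bdd_ki Set.univ y) 1).trans (le_of_eq ?_)
    show b.Gk Set.univ (fun _ => 1) y = 0
    unfold Gk ind
    simp
  have h := b.q_eq Set.univ x
  rw [hk] at h
  have h2 := tendsto_T (b := b) (K := Set.univ) (s := 0) (fun _ => le_rfl)
    (fun _ => zero_le_one) x
  have h3 : ∀ n y, b.it Set.univ 0 n y = b.G^[n] (fun _ => 0) y := by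
    intro n
    induction n with
    | zero => intro y; unfold it; simp
    | succ n ih =>
      intro y
      rw [Function.iterate_succ_apply']
      unfold it
      rw [if_pos (Set.mem_univ y)]
      congr 1
      funext z
      exact ih z
  simp only [h3] at h2
  exact tendsto_nhds_unique h h2

theorem qbar_mem_EG [Countable X] : b.qbar ∈ b.EG := ⟨Set.univ, funext fun x => b.q_univ x⟩

theorem one_mem_EG : (fun _ => 1) ∈ b.EG := ⟨∅, funext fun x => b.q_empty x⟩

/-- Extinction in finite sets. -/
theorem ae_ext_finite [Countable X] {x : X} (h : ∀ y, b.q x {y} = 1) (K : Finset X) :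
    ∀ᵐ ω ∂b.prob, ∀ᶠ n in atTop, ∀ y ∈ (K : Set X), pop x n ω y = 0 := by
  have h1 : ∀ y ∈ K, ∀ᵐ ω ∂b.prob, ∀ᶠ n in atTop, pop x n ω y = 0 := by
    intro y _
    have h2 := h y
    unfold q at h2
    have h3 : b.prob {ω : Om X | ∀ᶠ n in atTop, ∀ z ∈ ({y} : Set X), pop x n ω z = 0} = 1 := by
      rw [measureReal_def] at h2
      rw [← ENNReal.toReal_eq_one_iff]
      exact h2
    have h4 := (prob_compl_eq_zero_iff₀ (μ := b.prob) (s := {ω : Om X | ∀ᶠ n in atTop,
      ∀ z ∈ ({y} : Set X), pop x n ω z = 0}) ?_).2 h3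
    · rw [ae_iff]
      refine measure_mono_null (fun ω hω => ?_) h4
      simpa using hω
    · have hU : {ω : Om X | ∀ᶠ n in atTop, ∀ z ∈ ({y} : Set X), pop x n ω z = 0} =
          ⋃ n, quietFrom x {y} n := by
        ext ω
        simp only [quietFrom, Set.mem_iUnion, Set.mem_ofPred_eq, eventually_atTop]
      rw [hU]
      exact (MeasurableSet.iUnion fun n => measurable_quietFrom x {y} n).nullMeasurableSet
  have h5 : ∀ᵐ ω ∂b.prob, ∀ y ∈ K, ∀ᶠ n in atTop, pop x n ω y = 0 :=
    (Finset.eventually_all K).2 h1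
  filter_upwards [h5] with ω hω
  have := (Finset.eventually_all K).2 hω
  exact this

/-- If every finite set is almost surely visited only finitely often, then the minimal solution on a
finite set with boundary values `1` is `1`. -/
theorem T_one_of_ext [Countable X] (h : ∀ x y, b.q x {y} = 1) (K : Finset X) (x : X) :
    b.T (K : Set X) (fun _ => 1) x = 1 := by
  have h01 : ∀ x : X, (0 : ℝ) ≤ (fun _ => 1 : X → ℝ) x := fun _ => zero_le_one
  have h11 : ∀ x : X, (fun _ => 1 : X → ℝ) x ≤ 1 := fun _ => le_rfl
  refine le_antisymm (T_le_one h01 h11 x) ?_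
  -- `T ≥ G^n(1_{K^c})`
  have hge : ∀ n y, b.G^[n] (ind (K : Set X)) y ≤ b.T (K : Set X) (fun _ => 1) y := by
    intro n
    induction n with
    | zero =>
      intro y
      by_cases hy : y ∈ (K : Set X)
      · show ind (K : Set X) y ≤ _
        unfold ind
        rw [if_pos hy]
        exact T_nonneg h01 h11 y
      · rw [T_off y hy]
        exact ind_le_one _ y
    | succ n ih =>
      intro y
      by_cases hy : y ∈ (K : Set X)
      · rw [Function.iterate_succ_apply', ← T_on h01 h11 y hy]
        exact b.G_mono (b.iter_nonneg (ind_nonneg _) n) ih (T_le_one h01 h11) y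
      · rw [T_off y hy]
        exact b.iter_le_one (ind_nonneg _) (ind_le_one _) (n + 1) y
  -- `G^n(1_{K^c})(x) → 1`
  have hlim : Tendsto (fun n => ENNReal.ofReal (b.G^[n] (b.never (K : Set X)) x)) atTop (𝓝 1) := by
    have hmono : Monotone fun n => quietFrom x (K : Set X) n := by
      intro k l hkl ω hω m hm
      exact hω m (hkl.trans hm)
    have hU : {ω : Om X | ∀ᶠ n in atTop, ∀ y ∈ (K : Set X), pop x n ω y = 0} =
        ⋃ n, quietFrom x (K : Set X) n := by
      ext ω
      simp only [quietFrom, Set.mem_iUnion, Set.mem_ofPred_eq, eventually_atTop]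
    have h1 : Tendsto (fun n => b.prob (quietFrom x (K : Set X) n)) atTop
        (𝓝 (b.prob (⋃ n, quietFrom x (K : Set X) n))) := tendsto_measure_iUnion_atTop hmono
    have h2 : b.prob (⋃ n, quietFrom x (K : Set X) n) = 1 := by
      rw [← hU]
      have := b.ae_ext_finite (h x) K
      rw [ae_iff] at this
      rw [← prob_compl_eq_zero_iff₀]
      · exact this
      · rw [hU]
        exact (MeasurableSet.iUnion fun n => measurable_quietFrom x _ n).nullMeasurableSet
    rw [h2] at h1
    simp only [prob_quietFrom] at h1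
    exact h1
  have hlim2 : Tendsto (fun n => b.G^[n] (b.never (K : Set X)) x) atTop (𝓝 1) := by
    have h3 := (ENNReal.tendsto_toReal ENNReal.one_ne_top).comp hlim
    have h4 : (ENNReal.toReal ∘ fun n => ENNReal.ofReal (b.G^[n] (b.never (K : Set X)) x)) =
        fun n => b.G^[n] (b.never (K : Set X)) x := by
      funext n
      exact ENNReal.toReal_ofReal (b.iter_nonneg (b.never_nonneg _) n x)
    rw [h4] at h3
    exact h3
  refine le_of_tendsto hlim2 (Eventually.of_forall fun n => ?_)
  refine le_trans ?_ (hge n x)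
  -- monotonicity of the iterates
  have hle : ∀ y, b.never (K : Set X) y ≤ ind (K : Set X) y := by
    intro y
    refine (ciInf_le (b.bdd_ki _ y) 1).trans (le_of_eq ?_)
    show b.Gk (K : Set X) (fun _ => 1) y = _
    unfold Gk
    rw [G_one, mul_one]
  have hmon : ∀ n y, b.G^[n] (b.never (K : Set X)) y ≤ b.G^[n] (ind (K : Set X)) y := by
    intro n
    induction n with
    | zero => exact hle
    | succ n ih =>
      intro y
      rw [Function.iterate_succ_apply', Function.iterate_succ_apply']
      exact b.G_mono (b.iter_nonneg (b.never_nonneg _) n) ih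
        (b.iter_le_one (ind_nonneg _) (ind_le_one _) n) y
  exact hmon n x

/-- **No local survival.** If every site is almost surely visited only finitely often, then every
value between the probability of global extinction and `1` is taken by a fixed point. -/
theorem exists_fixed_of_ext [Countable X] (h : ∀ x y, b.q x {y} = 1) (x0 : X) {a : ℝ}
    (ha : a ∈ Set.Icc (b.q x0 Set.univ) 1) : ∃ w ∈ b.FG, w x0 = a := by
  rw [q_univ] at ha
  obtain ⟨w, hw, -, -, hwa⟩ := exists_fixed (z := fun _ => 1) one_mem x0
    (Eventually.of_forall fun K => b.T_one_of_ext h K x0) ha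
  exact ⟨w, hw, hwa⟩

end BRW

end Q294.Branch
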