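import Pool.Agent.Q294.BRW.Gen

/-!
# Minimal solutions of `G(w) = w` on a set `K` with boundary values off `K`
-/

set_option autoImplicit false

namespace Q294.Branch

open MeasureTheory Filter Topology

variable {X : Type*}

namespace BRW

variable (b : BRW X)

open Classical in
/-- The iteration for the minimal solution of `G(w) = w` on `K` with `w = s` off `K`. -/
noncomputable def it (K : Set X) (s : X → ℝ) : ℕ → X → ℝ
  | 0 => fun x => if x ∈ K then 0 else s x
  | k + 1 => fun x => if x ∈ K then b.G (it K s k) x else s x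

/-- The minimal solution of `G(w) = w` on `K` with `w = s` off `K`. -/
noncomputable def T (K : Set X) (s : X → ℝ) (x : X) : ℝ := ⨆ k, b.it K s k x

variable {b} {K : Set X} {s : X → ℝ}

theorem it_nonneg (hs : ∀ x, 0 ≤ s x) (k : ℕ) (x : X) : 0 ≤ b.it K s k x := by
  induction k generalizing x with
  | zero => unfold it; split_ifs; exacts [le_rfl, hs x]
  | succ k ih => unfold it; split_ifs; exacts [b.G_nonneg ih x, hs x]

theorem it_le_one (hs : ∀ x, 0 ≤ s x) (h1 : ∀ x, s x ≤ 1) (k : ℕ) (x : X) : b.it K s k x ≤ 1 := by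
  induction k generalizing x with
  | zero => unfold it; split_ifs; exacts [zero_le_one, h1 x]
  | succ k ih => unfold it; split_ifs; exacts [b.G_le_one (it_nonneg hs k) ih x, h1 x]

theorem it_succ_le (hs : ∀ x, 0 ≤ s x) (h1 : ∀ x, s x ≤ 1) (k : ℕ) (x : X) :
    b.it K s k x ≤ b.it K s (k + 1) x := by
  induction k generalizing x with
  | zero =>
    unfold it
    split_ifs
    · exact b.G_nonneg (it_nonneg hs 0) x
    · exact le_rfl
  | succ k ih =>
    rw [it, it]
    beta_reduce
    split_ifs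
    · exact b.G_mono (it_nonneg hs k) ih (it_le_one hs h1 (k + 1)) x
    · exact le_rfl

theorem it_mono (hs : ∀ x, 0 ≤ s x) (h1 : ∀ x, s x ≤ 1) (x : X) :
    Monotone fun k => b.it K s k x :=
  monotone_nat_of_le_succ fun k => it_succ_le hs h1 k x

theorem bdd_it (hs : ∀ x, 0 ≤ s x) (h1 : ∀ x, s x ≤ 1) (x : X) :
    BddAbove (Set.range fun k => b.it K s k x) :=
  ⟨1, by rintro _ ⟨k, rfl⟩; exact it_le_one hs h1 k x⟩

theorem it_le_T (hs : ∀ x, 0 ≤ s x) (h1 : ∀ x, s x ≤ 1) (k : ℕ) (x : X) :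
    b.it K s k x ≤ b.T K s x :=
  le_ciSup (bdd_it hs h1 x) k

theorem tendsto_T (hs : ∀ x, 0 ≤ s x) (h1 : ∀ x, s x ≤ 1) (x : X) :
    Tendsto (fun k => b.it K s k x) atTop (𝓝 (b.T K s x)) :=
  tendsto_atTop_ciSup (it_mono hs h1 x) (bdd_it hs h1 x)

theorem T_nonneg (hs : ∀ x, 0 ≤ s x) (h1 : ∀ x, s x ≤ 1) (x : X) : 0 ≤ b.T K s x :=
  (it_nonneg hs 0 x).trans (it_le_T hs h1 0 x)

theorem T_le_one (hs : ∀ x, 0 ≤ s x) (h1 : ∀ x, s x ≤ 1) (x : X) : b.T K s x ≤ 1 :=
  ciSup_le fun k => it_le_one hs h1 k x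

theorem T_off (x : X) (hx : x ∉ K) : b.T K s x = s x := by
  have : ∀ k, b.it K s k x = s x := by
    intro k
    cases k with
    | zero => unfold it; rw [if_neg hx]
    | succ k => unfold it; rw [if_neg hx]
  unfold T
  simp [this]

theorem T_on (hs : ∀ x, 0 ≤ s x) (h1 : ∀ x, s x ≤ 1) (x : X) (hx : x ∈ K) :
    b.G (b.T K s) x = b.T K s x := by
  have h := b.G_tendsto (it_nonneg hs) (it_le_one hs h1)
    (fun y => tendsto_T (b := b) (K := K) hs h1 y) x
  have h' : Tendsto (fun k => b.it K s (k + 1) x) atTop (𝓝 (b.T K s x)) :=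
    (tendsto_T hs h1 x).comp (tendsto_add_atTop_nat 1)
  have h2 : ∀ k, b.it K s (k + 1) x = b.G (b.it K s k) x := fun k => if_pos hx
  simp only [h2] at h'
  exact tendsto_nhds_unique h h'

/-- Minimality. -/
theorem T_le (hs : ∀ x, 0 ≤ s x) {u : X → ℝ} (hu : ∀ x, 0 ≤ u x)
    (hu1 : ∀ x, u x ≤ 1) (hoff : ∀ x, x ∉ K → s x ≤ u x) (hon : ∀ x, x ∈ K → b.G u x ≤ u x)
    (x : X) : b.T K s x ≤ u x := by
  have key : ∀ k x, b.it K s k x ≤ u x := by
    intro k
    induction k with
    | zero => intro x; unfold it; split_ifs with h; exacts [hu x, hoff x h]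
    | succ k ih =>
      intro x; unfold it; split_ifs with h
      · exact (b.G_mono (it_nonneg hs k) ih hu1 x).trans (hon x h)
      · exact hoff x h
  exact ciSup_le fun k => key k x

/-- The minimal fixed point. -/
noncomputable def qbar (b : BRW X) : X → ℝ := b.T Set.univ 0

theorem qbar_nonneg (x : X) : 0 ≤ b.qbar x := T_nonneg (fun _ => le_rfl) (fun _ => zero_le_one) x

theorem qbar_le_one (x : X) : b.qbar x ≤ 1 := T_le_one (fun _ => le_rfl) (fun _ => zero_le_one) x

theorem G_qbar : b.G b.qbar = b.qbar := by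
  funext x
  exact T_on (fun _ => le_rfl) (fun _ => zero_le_one) x trivial

theorem qbar_le {u : X → ℝ} (hu : ∀ x, 0 ≤ u x) (hu1 : ∀ x, u x ≤ 1) (hon : ∀ x, b.G u x ≤ u x)
    (x : X) : b.qbar x ≤ u x :=
  T_le (fun _ => le_rfl) hu hu1 (fun _ hx => absurd trivial hx) (fun x _ => hon x) x

theorem qbar_mem : b.qbar ∈ b.FG := ⟨fun x => ⟨qbar_nonneg x, qbar_le_one x⟩, G_qbar⟩

theorem one_mem : (fun _ => 1) ∈ b.FG :=
  ⟨fun _ => ⟨zero_le_one, le_rfl⟩, funext fun x => b.G_one x⟩

theorem T_qbar (K : Set X) : b.T K b.qbar = b.qbar := by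
  have hle : ∀ x, b.T K b.qbar x ≤ b.qbar x :=
    T_le qbar_nonneg qbar_nonneg qbar_le_one (fun _ _ => le_rfl)
      (fun x _ => (congrFun G_qbar x).le)
  funext x
  refine le_antisymm (hle x) ?_
  refine qbar_le (T_nonneg qbar_nonneg qbar_le_one) (T_le_one qbar_nonneg qbar_le_one)
    (fun y => ?_) x
  by_cases hy : y ∈ K
  · exact (T_on qbar_nonneg qbar_le_one y hy).le
  · rw [T_off y hy]
    calc b.G (b.T K b.qbar) y ≤ b.G b.qbar y :=
          b.G_mono (T_nonneg qbar_nonneg qbar_le_one) hle qbar_le_one y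
      _ = b.qbar y := congrFun G_qbar y

/-- Two solutions on a finite set `K` with the same boundary values: if they differ, then `K` is the
whole space and all points of the segment between them are solutions. -/
theorem segment (hb : b.Irreducible) (K : Finset X) {w z : X → ℝ} (hw : ∀ x, 0 ≤ w x)
    (hwz : ∀ x, w x ≤ z x) (hz : ∀ x, z x < 1) (hne : w ≠ z) (hoff : ∀ x, x ∉ K → w x = z x)
    (hGw : ∀ x, x ∈ K → b.G w x = w x) (hGz : ∀ x, x ∈ K → b.G z x = z x) :
    (∀ x, x ∈ K) ∧ ∀ t ∈ Set.Icc (0 : ℝ) 1, b.G (fun x => w x + t * (z x - w x)) =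
      fun x => w x + t * (z x - w x) := by
  classical
  -- the path
  set v : ℝ → X → ℝ := fun t x => w x + t * (z x - w x) with hv
  obtain ⟨x1, hx1⟩ : ∃ x, w x ≠ z x := by
    by_contra hcon
    push Not at hcon
    exact hne (funext hcon)
  have hx1K : x1 ∈ K := by
    by_contra h
    exact hx1 (hoff x1 h)
  set D : Finset X := K.filter fun x => w x < z x with hD
  have hx1D : x1 ∈ D := by
    rw [hD, Finset.mem_filter]
    exact ⟨hx1K, lt_of_le_of_ne (hwz x1) hx1⟩
  -- the largest parameter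
  obtain ⟨x2, hx2D, hx2⟩ := D.exists_min_image (fun x => (1 - w x) / (z x - w x)) ⟨x1, hx1D⟩
  set θ : ℝ := (1 - w x2) / (z x2 - w x2) with hθ
  have hx2' : w x2 < z x2 := (Finset.mem_filter.1 hx2D).2
  have hθ1 : 1 < θ := by
    rw [hθ, lt_div_iff₀ (by linarith)]
    have := hz x2
    linarith
  have hθ0 : 0 < θ := by linarith
  have hv1 : ∀ t ∈ Set.Icc 0 θ, ∀ x, v t x ≤ 1 := by
    intro t ht x
    by_cases hx : x ∈ D
    · have h1 := hx2 x hx
      have hpos : 0 < z x - w x := by
        have := (Finset.mem_filter.1 hx).2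
        linarith
      have h2 : t ≤ (1 - w x) / (z x - w x) := ht.2.trans h1
      rw [le_div_iff₀ hpos] at h2
      simp only [hv]
      linarith
    · have h3 : z x = w x := by
        by_cases hxK : x ∈ K
        · refine le_antisymm ?_ (hwz x)
          by_contra hcon
          push Not at hcon
          exact hx (Finset.mem_filter.2 ⟨hxK, hcon⟩)
        · exact (hoff x hxK).symm
      simp only [hv, h3, sub_self, mul_zero, add_zero]
      rw [← h3]
      exact (hz x).le
  have hI : Convex ℝ (Set.Icc 0 θ) := convex_Icc 0 θ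
  have hvN : ∀ x, NMC (Set.Icc 0 θ) fun t => v t x := by
    intro x
    have hd : 0 ≤ z x - w x := by linarith [hwz x]
    refine ⟨⟨hI, fun s _ t _ α β hα hβ hαβ => ?_⟩, fun s _ t _ hst => ?_, fun t ht => ?_⟩
    · simp only [hv, smul_eq_mul]
      have : w x = (α + β) * w x := by rw [hαβ, one_mul]
      nlinarith
    · simp only [hv]
      nlinarith
    · simp only [hv]
      have := mul_nonneg ht.1 hd
      linarith [hw x]
  have hGN : ∀ x, NMC (Set.Icc 0 θ) fun t => b.G (v t) x := fun x => b.NMC_G hI hvN hv1 x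
  have hv0 : v 0 = w := by funext x; simp [hv]
  have hv1' : v 1 = z := by funext x; simp [hv]
  have h0mem : (0 : ℝ) ∈ Set.Icc 0 θ := ⟨le_rfl, hθ0.le⟩
  have hθmem : θ ∈ Set.Icc 0 θ := ⟨hθ0.le, le_rfl⟩
  have h1mem : (1 : ℝ) ∈ Set.Icc 0 θ := ⟨zero_le_one, hθ1.le⟩
  -- convexity: at `θ` the inequality is reversed
  have hGθ : ∀ x ∈ K, v θ x ≤ b.G (v θ) x := by
    intro x hx
    have hc := (hGN x).convex.2 h0mem hθmem
      (show (0 : ℝ) ≤ 1 - 1 / θ by rw [sub_nonneg, div_le_one hθ0]; exact hθ1.le)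
      (show (0 : ℝ) ≤ 1 / θ by positivity) (by ring)
    simp only [smul_eq_mul, mul_zero, zero_add] at hc
    rw [one_div_mul_cancel hθ0.ne', hv1', hv0, hGz x hx, hGw x hx] at hc
    have h4 : z x = (1 - 1 / θ) * w x + 1 / θ * v θ x := by
      simp only [hv]
      field_simp
      ring
    have h5 : 1 / θ * v θ x ≤ 1 / θ * b.G (v θ) x := by linarith
    exact le_of_mul_le_mul_left h5 (by positivity)
  have hvx2 : v θ x2 = 1 := by
    simp only [hv, hθ]
    have : z x2 - w x2 ≠ 0 := by linarith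
    field_simp
    ring
  have hmemK : ∀ x, v θ x = 1 → x ∈ K := by
    intro x hx
    by_contra h
    have h6 : z x = w x := (hoff x h).symm
    simp only [hv, h6, sub_self, mul_zero, add_zero] at hx
    have := hz x
    rw [h6, hx] at this
    exact lt_irrefl _ this
  have hall : ∀ y, v θ y = 1 := fun y =>
    b.eq_one_of_irreducible hb (fun x => (hvN x).nonneg θ hθmem) (hv1 θ hθmem)
      (fun x hx => by have := hGθ x (hmemK x hx); rwa [hx] at this) hvx2 y
  have hKall : ∀ x, x ∈ K := fun x => hmemK x (hall x)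
  refine ⟨hKall, fun t ht => ?_⟩
  have hvθ : v θ = fun _ => 1 := funext hall
  have hGθ1 : ∀ x, b.G (v θ) x = v θ x := fun x => by rw [hvθ]; exact b.G_one x
  funext x
  have htmem : t ∈ Set.Icc 0 θ := ⟨ht.1, ht.2.trans hθ1.le⟩
  apply le_antisymm
  · -- between 0 and 1
    have hc := (hGN x).convex.2 h0mem h1mem (show (0 : ℝ) ≤ 1 - t by linarith [ht.2]) ht.1
      (by ring)
    simp only [smul_eq_mul, mul_zero, zero_add, mul_one] at hc
    rw [hv0, hv1', hGw x (hKall x), hGz x (hKall x)] at hc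
    have : b.G (v t) x ≤ v t x := by
      refine hc.trans (le_of_eq ?_)
      simp only [hv]; ring
    exact this
  · -- `1` is between `t` and `θ`
    show v t x ≤ b.G (v t) x
    have hθt : 0 < θ - t := by linarith [ht.2]
    have hc := (hGN x).convex.2 htmem hθmem
      (show (0 : ℝ) ≤ (θ - 1) / (θ - t) from div_nonneg (by linarith) hθt.le)
      (show (0 : ℝ) ≤ (1 - t) / (θ - t) from div_nonneg (by linarith [ht.2]) hθt.le)
      (by rw [← add_div]; rw [div_eq_one_iff_eq hθt.ne']; ring)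
    simp only [smul_eq_mul] at hc
    have h7 : (θ - 1) / (θ - t) * t + (1 - t) / (θ - t) * θ = 1 := by
      field_simp
      ring
    rw [h7, hv1', hGz x (hKall x), hGθ1 x] at hc
    have h8 : z x = (θ - 1) / (θ - t) * v t x + (1 - t) / (θ - t) * v θ x := by
      simp only [hv]
      field_simp
      ring
    have h9 : (θ - 1) / (θ - t) * v t x ≤ (θ - 1) / (θ - t) * b.G (v t) x := by linarith
    exact le_of_mul_le_mul_left h9 (div_pos (by linarith) hθt)

end BRW

end Q294.Branch
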