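import Pool.Agent.Q294.BRW.Defs

/-!
# The generating function of a branching random walk: analytic properties
-/

set_option autoImplicit false

namespace Q294.Branch

open MeasureTheory Filter Topology

variable {X : Type*}

/-- The monomial `∏_y z(y)^{f(y)}`. -/
noncomputable def mon (z : X → ℝ) (f : X →₀ ℕ) : ℝ := f.prod fun y k => z y ^ k

theorem mon_nonneg {z : X → ℝ} (hz : ∀ x, 0 ≤ z x) (f : X →₀ ℕ) : 0 ≤ mon z f :=
  Finset.prod_nonneg fun y _ => pow_nonneg (hz y) _

theorem mon_mono {z w : X → ℝ} (hz : ∀ x, 0 ≤ z x) (h : ∀ x, z x ≤ w x) (f : X →₀ ℕ) :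
    mon z f ≤ mon w f :=
  Finset.prod_le_prod (fun y _ => pow_nonneg (hz y) _) fun y _ => pow_le_pow_left₀ (hz y) (h y) _

theorem mon_one (f : X →₀ ℕ) : mon (fun _ => (1 : ℝ)) f = 1 := by
  unfold mon Finsupp.prod
  simp

theorem mon_le_one {z : X → ℝ} (hz : ∀ x, 0 ≤ z x) (h : ∀ x, z x ≤ 1) (f : X →₀ ℕ) :
    mon z f ≤ 1 := by
  have := mon_mono hz h f
  rwa [mon_one] at this

theorem mon_lt_one {z : X → ℝ} (hz : ∀ x, 0 ≤ z x) (h : ∀ x, z x ≤ 1) (f : X →₀ ℕ) {y : X}
    (hy : f y ≠ 0) (hy1 : z y < 1) : mon z f < 1 := by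
  classical
  unfold mon Finsupp.prod
  have hmem : y ∈ f.support := Finsupp.mem_support_iff.2 hy
  rw [← Finset.mul_prod_erase _ _ hmem]
  have h1 : z y ^ f y < 1 := pow_lt_one₀ (hz y) hy1 hy
  have h2 : ∏ x ∈ f.support.erase y, z x ^ f x ≤ 1 :=
    Finset.prod_le_one (fun i _ => pow_nonneg (hz i) _) fun i _ => pow_le_one₀ (hz i) (h i)
  have h3 : 0 ≤ ∏ x ∈ f.support.erase y, z x ^ f x :=
    Finset.prod_nonneg fun i _ => pow_nonneg (hz i) _
  calc z y ^ f y * ∏ x ∈ f.support.erase y, z x ^ f x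
      ≤ z y ^ f y * 1 := mul_le_mul_of_nonneg_left h2 (pow_nonneg (hz y) _)
    _ < 1 := by rw [mul_one]; exact h1

namespace BRW

variable (b : BRW X)

theorem G_def (z : X → ℝ) (x : X) : b.G z x = ∑' f : X →₀ ℕ, (b.law x f).toReal * mon z f := rfl

theorem hasSum_law (x : X) : HasSum (fun f => (b.law x f).toReal) 1 := by
  have h := (b.law x).tsum_coe
  have hs : Summable fun f => (b.law x f).toReal := by
    refine ENNReal.summable_toReal ?_
    rw [h]; exact ENNReal.one_ne_top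
  have : ∑' f, (b.law x f).toReal = 1 := by
    rw [← ENNReal.tsum_toReal_eq fun f => (b.law x).apply_ne_top f, h, ENNReal.toReal_one]
  rw [← this]
  exact hs.hasSum

theorem summable_law (x : X) : Summable fun f => (b.law x f).toReal := (b.hasSum_law x).summable

theorem summable_G {z : X → ℝ} (hz : ∀ x, 0 ≤ z x) (h : ∀ x, z x ≤ 1) (x : X) :
    Summable fun f => (b.law x f).toReal * mon z f := by
  refine Summable.of_nonneg_of_le (fun f => mul_nonneg ENNReal.toReal_nonneg (mon_nonneg hz f))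
    (fun f => ?_) (b.summable_law x)
  exact mul_le_of_le_one_right ENNReal.toReal_nonneg (mon_le_one hz h f)

theorem G_nonneg {z : X → ℝ} (hz : ∀ x, 0 ≤ z x) (x : X) : 0 ≤ b.G z x :=
  tsum_nonneg fun f => mul_nonneg ENNReal.toReal_nonneg (mon_nonneg hz f)

theorem G_mono {z w : X → ℝ} (hz : ∀ x, 0 ≤ z x) (h : ∀ x, z x ≤ w x) (hw : ∀ x, w x ≤ 1) (x : X) :
    b.G z x ≤ b.G w x := by
  refine Summable.tsum_le_tsum (fun f => ?_) (b.summable_G hz (fun y => (h y).trans (hw y)) x)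
    (b.summable_G (fun y => (hz y).trans (h y)) hw x)
  exact mul_le_mul_of_nonneg_left (mon_mono hz h f) ENNReal.toReal_nonneg

theorem G_one (x : X) : b.G (fun _ => 1) x = 1 := by
  rw [G_def]
  simp only [mon_one, mul_one]
  exact (b.hasSum_law x).tsum_eq

theorem G_le_one {z : X → ℝ} (hz : ∀ x, 0 ≤ z x) (h : ∀ x, z x ≤ 1) (x : X) : b.G z x ≤ 1 := by
  have := b.G_mono hz h (fun _ => le_rfl) x
  rwa [G_one] at this

theorem G_tendsto {ι : Type*} {l : Filter ι} {z : ι → X → ℝ} {w : X → ℝ}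
    (hz : ∀ i x, 0 ≤ z i x) (hz1 : ∀ i x, z i x ≤ 1) (h : ∀ x, Tendsto (fun i => z i x) l (𝓝 (w x)))
    (x : X) : Tendsto (fun i => b.G (z i) x) l (𝓝 (b.G w x)) := by
  simp only [G_def]
  refine tendsto_tsum_of_dominated_convergence (b.summable_law x) (fun f => ?_)
    (Eventually.of_forall fun i f => ?_)
  · refine Tendsto.const_mul _ ?_
    unfold mon Finsupp.prod
    exact tendsto_finsetProd _ fun y _ => (h y).pow _
  · rw [Real.norm_of_nonneg (mul_nonneg ENNReal.toReal_nonneg (mon_nonneg (hz i) f))]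
    exact mul_le_of_le_one_right ENNReal.toReal_nonneg (mon_le_one (hz i) (hz1 i) f)

/-- If `z ≤ 1` and `G(z)(x) = 1`, then `z` is `1` at every site at which a particle at `x` can have a
child. -/
theorem eq_one_of_G_eq_one {z : X → ℝ} (hz : ∀ x, 0 ≤ z x) (h : ∀ x, z x ≤ 1) {x y : X}
    (h1 : b.G z x = 1) (hm : 0 < b.mean x y) : z y = 1 := by
  by_contra hne
  have hlt : z y < 1 := lt_of_le_of_ne (h y) hne
  obtain ⟨f, hf⟩ : ∃ f : X →₀ ℕ, b.law x f * (f y : ENNReal) ≠ 0 := by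
    by_contra hcon
    push Not at hcon
    have : b.mean x y = 0 := by
      unfold mean
      exact ENNReal.tsum_eq_zero.2 hcon
    exact hm.ne' this
  have hf1 : b.law x f ≠ 0 := left_ne_zero_of_mul hf
  have hf2 : f y ≠ 0 := by
    have := right_ne_zero_of_mul hf
    exact_mod_cast this
  have hlt2 : b.G z x < b.G (fun _ => 1) x := by
    rw [G_def, G_def]
    refine Summable.tsum_lt_tsum (i := f) (fun g => ?_) ?_ (b.summable_G hz h x)
      (b.summable_G (fun _ => zero_le_one) (fun _ => le_rfl) x)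
    · exact mul_le_mul_of_nonneg_left (by rw [mon_one]; exact mon_le_one hz h g)
        ENNReal.toReal_nonneg
    · rw [mon_one, mul_one]
      have hpos : 0 < (b.law x f).toReal := ENNReal.toReal_pos hf1 ((b.law x).apply_ne_top f)
      exact mul_lt_of_lt_one_right hpos (mon_lt_one hz h f hf2 hlt)
  rw [h1, G_one] at hlt2
  exact lt_irrefl _ hlt2

/-- If `v ≤ 1` and `v ≤ G(v)` where `v = 1`, then, by irreducibility, `v = 1` somewhere implies
`v = 1` everywhere. -/
theorem eq_one_of_irreducible (hb : b.Irreducible) {v : X → ℝ} (hv : ∀ x, 0 ≤ v x)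
    (h : ∀ x, v x ≤ 1) (hG : ∀ x, v x = 1 → 1 ≤ b.G v x) {x : X} (hx : v x = 1) (y : X) :
    v y = 1 := by
  have := hb x y
  induction this with
  | refl => exact hx
  | tail _ hbc ih =>
    exact b.eq_one_of_G_eq_one hv h (le_antisymm (b.G_le_one hv h _) (hG _ ih)) hbc

end BRW

/-- Nonnegative, nondecreasing, convex functions. -/
structure NMC (I : Set ℝ) (φ : ℝ → ℝ) : Prop where
  convex : ConvexOn ℝ I φ
  mono : MonotoneOn φ I
  nonneg : ∀ t ∈ I, 0 ≤ φ t

theorem NMC.const {I : Set ℝ} (hI : Convex ℝ I) {c : ℝ} (hc : 0 ≤ c) : NMC I fun _ => c :=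
  ⟨convexOn_const c hI, fun _ _ _ _ _ => le_rfl, fun _ _ => hc⟩

theorem NMC.mul {I : Set ℝ} {φ ψ : ℝ → ℝ} (h : NMC I φ) (h' : NMC I ψ) :
    NMC I fun t => φ t * ψ t := by
  refine ⟨?_, ?_, ?_⟩
  · exact ConvexOn.mul h.convex h'.convex (fun x hx => h.nonneg x hx) (fun x hx => h'.nonneg x hx)
      (h.mono.monovaryOn h'.mono)
  · intro s hs t ht hst
    exact mul_le_mul (h.mono hs ht hst) (h'.mono hs ht hst) (h'.nonneg s hs) (h.nonneg t ht)
  · intro t ht
    exact mul_nonneg (h.nonneg t ht) (h'.nonneg t ht)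

theorem NMC.pow {I : Set ℝ} {φ : ℝ → ℝ} (h : NMC I φ) (k : ℕ) : NMC I fun t => φ t ^ k := by
  induction k with
  | zero => simpa using NMC.const h.convex.1 zero_le_one
  | succ k ih =>
    simp only [pow_succ]
    exact ih.mul h

theorem NMC.prod {I : Set ℝ} (hI : Convex ℝ I) {ι : Type*} (s : Finset ι) {φ : ι → ℝ → ℝ}
    (h : ∀ i, NMC I (φ i)) : NMC I fun t => ∏ i ∈ s, φ i t := by
  classical
  induction s using Finset.induction_on with
  | empty => simpa using NMC.const hI zero_le_one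
  | insert a s ha ih =>
    simp only [Finset.prod_insert ha]
    exact (h a).mul ih

theorem NMC.mon {I : Set ℝ} (hI : Convex ℝ I) {z : ℝ → X → ℝ}
    (h : ∀ x, NMC I fun t => z t x) (f : X →₀ ℕ) : NMC I fun t => mon (z t) f :=
  NMC.prod hI _ fun y => (h y).pow _

namespace BRW

variable (b : BRW X)

theorem NMC_G {I : Set ℝ} (hI : Convex ℝ I) {z : ℝ → X → ℝ}
    (h : ∀ x, NMC I fun t => z t x) (h1 : ∀ t ∈ I, ∀ x, z t x ≤ 1) (x : X) :
    NMC I fun t => b.G (z t) x := by
  have hz : ∀ t ∈ I, ∀ x, 0 ≤ z t x := fun t ht x => (h x).nonneg t ht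
  refine ⟨⟨hI, ?_⟩, ?_, ?_⟩
  · intro s hs t ht α β hα hβ hαβ
    have hmem : α • s + β • t ∈ I := hI hs ht hα hβ hαβ
    simp only [G_def, smul_eq_mul] at hmem ⊢
    rw [← tsum_mul_left, ← tsum_mul_left, ← Summable.tsum_add]
    · refine Summable.tsum_le_tsum (fun f => ?_) (b.summable_G (hz _ hmem) (h1 _ hmem) x) ?_
      · have := (NMC.mon hI h f).convex.2 hs ht hα hβ hαβ
        simp only [smul_eq_mul] at this
        have h2 := mul_le_mul_of_nonneg_left this (ENNReal.toReal_nonneg (a := b.law x f))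
        linarith
      · exact (((b.summable_G (hz _ hs) (h1 _ hs) x).mul_left α).add
          ((b.summable_G (hz _ ht) (h1 _ ht) x).mul_left β))
    · exact (b.summable_G (hz _ hs) (h1 _ hs) x).mul_left α
    · exact (b.summable_G (hz _ ht) (h1 _ ht) x).mul_left β
  · intro s hs t ht hst
    exact b.G_mono (hz s hs) (fun y => (h y).mono hs ht hst) (h1 t ht) x
  · intro t ht
    exact b.G_nonneg (hz t ht) x

end BRW

end Q294.Branch
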