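import Pool.Agent.Q294.BRW.Dev

/-!
# A branching random walk with countably many extinction probability vectors
-/

set_option autoImplicit false

namespace Q294.Branch.Ladder

open MeasureTheory ProbabilityTheory Filter Topology
open scoped ENNReal

/-- The default children of a particle at `(j, k)`: one at `(j, k + 1)` and, if `j > 0`, one at
`(j - 1, k + 2)`. -/
noncomputable def base (y : ℕ × ℕ) : ℕ × ℕ →₀ ℕ :=
  Finsupp.single (y.1, y.2 + 1) 1 + if 0 < y.1 then Finsupp.single (y.1 - 1, y.2 + 2) 1 else 0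

/-- In exceptional cases there are further children at `(j + 1, k)` and `(0, 0)`. -/
noncomputable def extra (y : ℕ × ℕ) : ℕ × ℕ →₀ ℕ :=
  base y + (Finsupp.single (y.1 + 1, y.2) 1 + Finsupp.single (0, 0) 1)

/-- The probability of an exceptional case. -/
noncomputable def pr (y : ℕ × ℕ) : ℝ≥0∞ := (1 / 8) ^ (y.1 + y.2 + 1)

theorem eighth_lt : (1 / 8 : ℝ≥0∞) < 1 := by
  rw [ENNReal.div_lt_iff (by norm_num) (by norm_num)]
  norm_num

theorem eighth_ne : (1 / 8 : ℝ≥0∞) ≠ 0 := by simp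

theorem pr_lt (y : ℕ × ℕ) : pr y < 1 := pow_lt_one₀ zero_le eighth_lt (by omega)

theorem pr_ne (y : ℕ × ℕ) : pr y ≠ 0 := pow_ne_zero _ eighth_ne

/-- The branching random walk. -/
noncomputable def ladder : BRW (ℕ × ℕ) where
  law y := two (pr y) (pr_lt y).le (base y) (extra y)

theorem law_cases {y : ℕ × ℕ} {f : ℕ × ℕ →₀ ℕ} (h : ladder.law y f ≠ 0) :
    f = base y ∨ f = extra y :=
  mem_of_two_ne_zero (hp := (pr_lt y).le) h

theorem law_extra (y : ℕ × ℕ) : ladder.law y (extra y) ≠ 0 :=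
  two_apply_right_pos _ (pr_lt y).le (pr_ne y) _ _

theorem base_le {y : ℕ × ℕ} {f : ℕ × ℕ →₀ ℕ} (h : ladder.law y f ≠ 0) {z : ℕ × ℕ}
    (hz : base y z ≠ 0) : f z ≠ 0 := by
  rcases law_cases h with rfl | rfl
  · exact hz
  · unfold extra
    rw [Finsupp.add_apply]
    omega

theorem base_right (j k : ℕ) : base (j, k) (j, k + 1) ≠ 0 := by
  unfold base
  rw [Finsupp.add_apply, Finsupp.single_eq_same]
  omega

theorem base_down (j k : ℕ) : base (j + 1, k) (j, k + 2) ≠ 0 := by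
  unfold base
  rw [Finsupp.add_apply, if_pos (Nat.succ_pos j), Nat.add_sub_cancel, Finsupp.single_eq_same]
  omega

theorem base_cases {y z : ℕ × ℕ} (h : base y z ≠ 0) :
    z = (y.1, y.2 + 1) ∨ (0 < y.1 ∧ z = (y.1 - 1, y.2 + 2)) := by
  classical
  unfold base at h
  by_contra hcon
  push Not at hcon
  apply h
  rw [Finsupp.add_apply, Finsupp.single_eq_of_ne hcon.1]
  split_ifs with h0
  · rw [Finsupp.single_eq_of_ne (hcon.2 h0), add_zero]
  · rfl

theorem irreducible : ladder.Irreducible := by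
  have h0 : ∀ x : ℕ × ℕ, 0 < ladder.mean x (0, 0) := fun x =>
    ladder.mean_pos (law_extra x) (by unfold extra; simp)
  have hup : ∀ j k : ℕ, 0 < ladder.mean (j, k) (j + 1, k) := fun j k =>
    ladder.mean_pos (law_extra (j, k)) (by unfold extra; simp)
  have hright : ∀ j k : ℕ, 0 < ladder.mean (j, k) (j, k + 1) := fun j k =>
    ladder.mean_pos (law_extra (j, k)) (base_le (law_extra _) (base_right j k))
  intro x y
  refine Relation.ReflTransGen.head (h0 x) ?_
  have h1 : ∀ j : ℕ, Relation.ReflTransGen (fun u v => 0 < ladder.mean u v) (0, 0) (j, 0) := by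
    intro j
    induction j with
    | zero => exact Relation.ReflTransGen.refl
    | succ j ih => exact ih.tail (hup j 0)
  have h2 : ∀ k : ℕ, Relation.ReflTransGen (fun u v => 0 < ladder.mean u v) (0, 0) (y.1, k) := by
    intro k
    induction k with
    | zero => exact h1 y.1
    | succ k ih => exact ih.tail (hright y.1 k)
  exact h2 y.2

theorem nonSingular : ladder.NonSingular := by
  refine ⟨(0, 0), _, law_extra (0, 0), ?_⟩
  intro hcon
  have h : BRW.pair (extra (0, 0)) (fun _ => 1) = 1 := by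
    unfold BRW.pair
    simp only [mul_one]
    rw [Finsupp.sum] at hcon ⊢
    rw [← Nat.cast_sum, hcon, Nat.cast_one]
  unfold extra at h
  rw [BRW.pair_add, BRW.pair_add, BRW.pair_single, BRW.pair_single] at h
  have h2 : (2 : ℝ≥0∞) ≤ 1 := by
    calc (2 : ℝ≥0∞) = 1 + 1 := by norm_num
      _ ≤ BRW.pair (base (0, 0)) (fun _ => 1) + (1 + 1) := le_add_self
      _ = 1 := h
  exact absurd h2 (by norm_num)

/-- The weight. -/
noncomputable def wt (y : ℕ × ℕ) : ℝ≥0∞ := 1 / 2 * (1 / 8) ^ (y.1 + y.2)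

theorem M_eq (v : ℕ × ℕ → ℝ≥0∞) (y : ℕ × ℕ) : ladder.M v y =
    BRW.pair (base y) v + pr y * (v (y.1 + 1, y.2) + v (0, 0)) := by
  unfold BRW.M
  have h := tsum_two (pr y) (pr_lt y).le (base y) (extra y) fun f => BRW.pair f v
  rw [show extra y = base y + (Finsupp.single (y.1 + 1, y.2) 1 + Finsupp.single (0, 0) 1) from rfl]
    at h
  rw [BRW.pair_add, BRW.pair_add, BRW.pair_single, BRW.pair_single] at h
  refine h.trans ?_
  rw [mul_add, ← add_assoc, ← add_mul, tsub_add_cancel_of_le (pr_lt y).le, one_mul]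

theorem pair_base_le (y : ℕ × ℕ) : BRW.pair (base y) wt ≤ (1 / 8) ^ (y.1 + y.2 + 1) := by
  unfold base
  rw [BRW.pair_add, BRW.pair_single]
  have h1 : wt (y.1, y.2 + 1) = 1 / 2 * (1 / 8) ^ (y.1 + y.2 + 1) := rfl
  have h2 : BRW.pair (if 0 < y.1 then Finsupp.single (y.1 - 1, y.2 + 2) 1 else 0) wt ≤
      1 / 2 * (1 / 8) ^ (y.1 + y.2 + 1) := by
    split_ifs with h
    · rw [BRW.pair_single]
      unfold wt
      rw [show y.1 - 1 + (y.2 + 2) = y.1 + y.2 + 1 by omega]
    · rw [BRW.pair_zero]; exact zero_le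
  rw [h1]
  have h3 : (1 / 2 : ℝ≥0∞) * (1 / 8) ^ (y.1 + y.2 + 1) + 1 / 2 * (1 / 8) ^ (y.1 + y.2 + 1) =
      (1 / 8) ^ (y.1 + y.2 + 1) := by
    rw [← add_mul, ENNReal.add_halves, one_mul]
  exact (add_le_add le_rfl h2).trans h3.le

theorem wt_le_half (y : ℕ × ℕ) : wt y ≤ 1 / 2 := by
  unfold wt
  calc 1 / 2 * (1 / 8 : ℝ≥0∞) ^ (y.1 + y.2) ≤ 1 / 2 * 1 := by
        gcongr
        exact pow_le_one₀ zero_le eighth_lt.le
    _ = 1 / 2 := mul_one _

theorem M_add_le (y : ℕ × ℕ) : ladder.M wt y + pr y ≤ wt y := by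
  rw [M_eq]
  have h1 := pair_base_le y
  have h2 : pr y * (wt (y.1 + 1, y.2) + wt (0, 0)) ≤ pr y := by
    calc pr y * (wt (y.1 + 1, y.2) + wt (0, 0)) ≤ pr y * (1 / 2 + 1 / 2) := by
          gcongr
          · exact wt_le_half _
          · exact wt_le_half _
      _ = pr y := by rw [ENNReal.add_halves, mul_one]
  have h3 : wt y = 4 * pr y := by
    unfold wt pr
    rw [pow_succ]
    rw [show (4 : ℝ≥0∞) * ((1 / 8) ^ (y.1 + y.2) * (1 / 8)) = (4 * (1 / 8)) * (1 / 8) ^ (y.1 + y.2) by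
      ring]
    congr 1
    rw [show (8 : ℝ≥0∞) = 4 * 2 by norm_num]
    rw [one_div, one_div, ENNReal.mul_inv (Or.inl (by norm_num)) (Or.inl (by norm_num)), ← mul_assoc,
      ENNReal.mul_inv_cancel (by norm_num) (by norm_num), one_mul]
  rw [h3]
  calc BRW.pair (base y) wt + pr y * (wt (y.1 + 1, y.2) + wt (0, 0)) + pr y
      ≤ pr y + pr y + pr y := by
        gcongr
        exact h1
    _ = 3 * pr y := by ring
    _ ≤ 4 * pr y := by gcongr; norm_num

theorem dev_le (y : ℕ × ℕ) : ∑' f, ladder.law y f * BRW.isDev (base y) f ≤ pr y := by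
  have h := tsum_two (pr y) (pr_lt y).le (base y) (extra y) fun f => BRW.isDev (base y) f
  refine (le_of_eq h).trans ?_
  have h1 : BRW.isDev (base y) (base y) = 0 := if_pos rfl
  have h2 : BRW.isDev (base y) (extra y) ≤ 1 := by
    unfold BRW.isDev; split_ifs; exacts [zero_le, le_rfl]
  rw [h1, mul_zero, zero_add]
  calc pr y * BRW.isDev (base y) (extra y) ≤ pr y * 1 := by gcongr
    _ = pr y := mul_one _

theorem tsum_dev (x : ℕ × ℕ) : ∑' n, ladder.prob (BRW.dev base x n) ≤ wt x :=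
  (ENNReal.tsum_le_tsum fun n => ladder.prob_dev_le dev_le x n).trans
    (ladder.tsum_dev_le M_add_le x)

theorem ae_not_dev (x : ℕ × ℕ) : ∀ᵐ ω ∂ladder.prob, ∀ᶠ n in atTop, ω ∉ BRW.dev base x n := by
  refine ae_eventually_notMem (ne_top_of_le_ne_top ?_ (tsum_dev x))
  exact ne_top_of_le_ne_top (by simp) (wt_le_half x)

theorem prob_dev_half (x : ℕ × ℕ) : ladder.prob (⋃ n, BRW.dev base x n) ≤ 1 / 2 :=
  (measure_iUnion_le _).trans ((tsum_dev x).trans (wt_le_half x))

section Path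

variable {x : ℕ × ℕ} {ω : Om (ℕ × ℕ)}

theorem step_of_law (h : ∀ n : ℕ, ∀ p : (ℕ × ℕ) × ℕ, ladder.law p.1 (ω n p) ≠ 0) {n : ℕ}
    {y z : ℕ × ℕ} (hy : pop x n ω y ≠ 0) (hz : base y z ≠ 0) : pop x (n + 1) ω z ≠ 0 :=
  BRW.next_ne_zero (BRW.mem_cells_zero hy) (base_le (h n (y, 0)) hz)

theorem step_inv {n : ℕ} (h : ω ∉ BRW.dev base x n) {z : ℕ × ℕ} (hz : pop x (n + 1) ω z ≠ 0) :
    ∃ y, pop x n ω y ≠ 0 ∧ base y z ≠ 0 := by
  rw [BRW.pop_succ_of_not_dev h, Finsupp.finsetSum_apply] at hz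
  obtain ⟨p, hp, hp0⟩ := Finset.exists_ne_zero_of_sum_ne_zero hz
  refine ⟨p.1, ?_, hp0⟩
  have := mem_cells.1 hp
  omega

theorem stay (h : ∀ n : ℕ, ∀ p : (ℕ × ℕ) × ℕ, ladder.law p.1 (ω n p) ≠ 0) {n j k : ℕ}
    (hy : pop x n ω (j, k) ≠ 0) (m : ℕ) : pop x (n + m) ω (j, k + m) ≠ 0 := by
  induction m with
  | zero => exact hy
  | succ m ih => exact step_of_law h ih (base_right j (k + m))

theorem descend (h : ∀ n : ℕ, ∀ p : (ℕ × ℕ) × ℕ, ladder.law p.1 (ω n p) ≠ 0) {n j k : ℕ} (l : ℕ)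
    (hy : pop x n ω (j + l, k) ≠ 0) : pop x (n + l) ω (j, k + 2 * l) ≠ 0 := by
  induction l generalizing n k with
  | zero => exact hy
  | succ l ih =>
    have h1 : pop x (n + 1) ω (j + l, k + 2) ≠ 0 := step_of_law h hy (base_down (j + l) k)
    have h2 := ih h1
    rw [show n + (l + 1) = n + 1 + l by ring, show k + 2 * (l + 1) = k + 2 + 2 * l by ring]
    exact h2

theorem bounds {N J : ℕ} (hN : ∀ n ≥ N, ω ∉ BRW.dev base x n)
    (hJ : ∀ y, pop x N ω y ≠ 0 → y.1 ≤ J) (m : ℕ) :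
    ∀ y, pop x (N + m) ω y ≠ 0 → y.1 ≤ J ∧ m ≤ y.2 := by
  induction m with
  | zero => intro y hy; exact ⟨hJ y hy, Nat.zero_le _⟩
  | succ m ih =>
    intro z hz
    obtain ⟨y, hy, hyz⟩ := step_inv (hN (N + m) (Nat.le_add_right _ _)) hz
    obtain ⟨h1, h2⟩ := ih y hy
    rcases base_cases hyz with rfl | ⟨h0, rfl⟩
    · exact ⟨h1, by simpa using h2⟩
    · constructor
      · show y.1 - 1 ≤ J
        omega
      · show m + 1 ≤ y.2 + 2
        omega

end Path

/-- Almost surely there is a level `J` such that a set is visited infinitely often if and only if it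
has infinitely many points in one of the rows `0, …, J`. -/
theorem key (x : ℕ × ℕ) : ∀ᵐ ω ∂ladder.prob, ∃ J : ℕ, ∀ A : Set (ℕ × ℕ),
    (¬ ∀ᶠ n in atTop, ∀ y ∈ A, pop x n ω y = 0) ↔ ∃ i ≤ J, {k | (i, k) ∈ A}.Infinite := by
  filter_upwards [ladder.ae_supp, ae_not_dev x] with ω hω hdev
  obtain ⟨N, hN⟩ := eventually_atTop.1 hdev
  -- there is a particle at time `N`
  have hne : (pop x N ω).support.Nonempty := by
    have h0 : pop x 0 ω (x.1, x.2) ≠ 0 := by simp [pop]
    have h1 := stay hω h0 N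
    rw [Nat.zero_add] at h1
    exact ⟨_, Finsupp.mem_support_iff.2 h1⟩
  obtain ⟨⟨J, K⟩, hmem, hmax⟩ := (pop x N ω).support.exists_max_image (fun y => y.1) hne
  have hJK : pop x N ω (J, K) ≠ 0 := Finsupp.mem_support_iff.1 hmem
  have hJ : ∀ y, pop x N ω y ≠ 0 → y.1 ≤ J := fun y hy => hmax y (Finsupp.mem_support_iff.2 hy)
  refine ⟨J, fun A => ⟨fun hV => ?_, ?_⟩⟩
  · -- if all rows are finite, then `A` is visited finitely often
    by_contra hcon
    push Not at hcon
    apply hV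
    have hfin : (⋃ i ∈ Finset.range (J + 1), {k | (i, k) ∈ A}).Finite := by
      refine Set.Finite.biUnion (Finset.finite_toSet _) fun i hi => ?_
      have hi' : i < J + 1 := Finset.mem_range.1 hi
      exact hcon i (Nat.lt_succ_iff.1 hi')
    obtain ⟨B, hB⟩ := hfin.bddAbove
    refine eventually_atTop.2 ⟨N + (B + 1), fun n hn y hy => ?_⟩
    by_contra hne
    obtain ⟨m, rfl⟩ := Nat.exists_eq_add_of_le (show N ≤ n by omega)
    obtain ⟨h1, h2⟩ := bounds hN hJ m y hne
    have h3 : y.2 ≤ B := by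
      apply hB
      simp only [Set.mem_iUnion]
      exact ⟨y.1, Finset.mem_range.2 (by omega), hy⟩
    omega
  · rintro ⟨i, hi, hinf⟩ hev
    obtain ⟨n0, hn0⟩ := eventually_atTop.1 hev
    obtain ⟨k, hk, hlt⟩ := hinf.exists_gt (K + 2 * (J - i) + n0)
    have h1 : pop x N ω (i + (J - i), K) ≠ 0 := by
      rwa [Nat.add_sub_cancel' hi]
    have h2 := descend hω (J - i) h1
    have h3 := stay hω h2 (k - (K + 2 * (J - i)))
    rw [show K + 2 * (J - i) + (k - (K + 2 * (J - i))) = k by omega] at h3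
    exact h3 (hn0 _ (by omega) (i, k) hk)

/-- The rows. -/
def row (i : ℕ) : Set (ℕ × ℕ) := {y | y.1 = i}

theorem row_infinite_iff (i l : ℕ) : {k | (l, k) ∈ row i}.Infinite ↔ l = i := by
  unfold row
  simp only [Set.mem_ofPred_eq]
  by_cases h : l = i
  · simp [h, Set.infinite_univ]
  · simp [h]

theorem q_row_of {A : Set (ℕ × ℕ)} {i : ℕ} (hi : {k | (i, k) ∈ A}.Infinite)
    (hmin : ∀ l < i, ¬ {k | (l, k) ∈ A}.Infinite) (x : ℕ × ℕ) :
    ladder.q x A = ladder.q x (row i) := by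
  refine ladder.q_congr_of_ae ?_
  filter_upwards [key x] with ω hω
  obtain ⟨J, hJ⟩ := hω
  rw [← not_iff_not, hJ A, hJ (row i)]
  simp only [row_infinite_iff]
  constructor
  · rintro ⟨l, hl, hinf⟩
    refine ⟨i, ?_, rfl⟩
    by_contra hcon
    exact hmin l (by omega) hinf
  · rintro ⟨l, hl, rfl⟩
    exact ⟨l, hl, hi⟩

theorem q_one_of {A : Set (ℕ × ℕ)} (h : ∀ l, ¬ {k | (l, k) ∈ A}.Infinite) (x : ℕ × ℕ) :
    ladder.q x A = 1 := by
  refine ladder.q_eq_one_of_ae ?_
  filter_upwards [key x] with ω hω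
  obtain ⟨J, hJ⟩ := hω
  by_contra hcon
  obtain ⟨l, -, hl⟩ := (hJ A).1 hcon
  exact h l hl

theorem q_row_zero (i : ℕ) : ladder.q (i, 0) (row i) = 0 := by
  refine ladder.q_eq_zero_of_ae ?_
  filter_upwards [ladder.ae_supp] with ω hω hev
  obtain ⟨n0, hn0⟩ := eventually_atTop.1 hev
  have h0 : pop (i, 0) 0 ω (i, 0) ≠ 0 := by simp [pop]
  have h1 := stay hω h0 n0
  rw [Nat.zero_add] at h1
  exact h1 (hn0 n0 le_rfl _ rfl)

theorem q_row_pos {i l : ℕ} (h : i < l) : 0 < ladder.q (i, 0) (row l) := by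
  have hsub : (⋃ n, BRW.dev base (i, 0) n)ᶜ ⊆
      {ω : Om (ℕ × ℕ) | ∀ᶠ n in atTop, ∀ y ∈ row l, pop (i, 0) n ω y = 0} := by
    intro ω hω
    have hN : ∀ n ≥ 0, ω ∉ BRW.dev base (i, 0) n := by
      intro n _ hn
      exact hω (Set.mem_iUnion.2 ⟨n, hn⟩)
    have hJ : ∀ y, pop (i, 0) 0 ω y ≠ 0 → y.1 ≤ i := by
      intro y hy
      by_contra hcon
      apply hy
      show Finsupp.single (i, 0) 1 y = 0
      refine Finsupp.single_eq_of_ne fun h' => hcon ?_
      rw [h']
    refine Eventually.of_forall fun n y hy => ?_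
    by_contra hne
    have h1 := bounds hN hJ n y (by rwa [Nat.zero_add])
    have h2 : y.1 = l := hy
    omega
  unfold BRW.q
  rw [measureReal_def]
  refine ENNReal.toReal_pos ?_ (measure_ne_top _ _)
  intro h0
  have h1 : ladder.prob (⋃ n, BRW.dev base (i, 0) n)ᶜ = 0 := measure_mono_null hsub h0
  have h2 : (1 : ℝ≥0∞) ≤ 1 / 2 := by
    calc (1 : ℝ≥0∞) = ladder.prob Set.univ := measure_univ.symm
      _ = ladder.prob ((⋃ n, BRW.dev base (i, 0) n) ∪ (⋃ n, BRW.dev base (i, 0) n)ᶜ) := by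
          rw [Set.union_compl_self]
      _ ≤ ladder.prob (⋃ n, BRW.dev base (i, 0) n) + ladder.prob (⋃ n, BRW.dev base (i, 0) n)ᶜ :=
          measure_union_le _ _
      _ ≤ 1 / 2 := by rw [h1, add_zero]; exact prob_dev_half _
  have h3 : (1 / 2 : ℝ≥0∞) < 1 := by
    rw [ENNReal.div_lt_iff (by norm_num) (by norm_num)]
    norm_num
  exact absurd h2 (not_le.2 h3)

/-- The extinction probability vector of a row. -/
noncomputable def qr (i : ℕ) : ℕ × ℕ → ℝ := fun x => ladder.q x (row i)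

theorem qr_injective : Function.Injective qr := by
  intro i l h
  rcases lt_trichotomy i l with hil | hil | hil
  · exfalso
    have h1 : qr i (i, 0) = qr l (i, 0) := by rw [h]
    have h2 := q_row_pos hil
    have h3 := q_row_zero i
    unfold qr at h1
    linarith
  · exact hil
  · exfalso
    have h1 : qr i (l, 0) = qr l (l, 0) := by rw [h]
    have h2 := q_row_pos hil
    have h3 := q_row_zero l
    unfold qr at h1
    linarith

theorem EG_eq : ladder.EG = {fun _ => 1} ∪ Set.range qr := by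
  classical
  ext z
  constructor
  · rintro ⟨A, rfl⟩
    by_cases h : ∃ i, {k | (i, k) ∈ A}.Infinite
    · right
      refine ⟨Nat.find h, ?_⟩
      funext x
      exact (q_row_of (Nat.find_spec h) (fun l hl => Nat.find_min h hl) x).symm
    · left
      push Not at h
      show (fun x => ladder.q x A) = fun _ => 1
      funext x
      exact q_one_of (fun l => by
        rw [Set.not_infinite]; exact h l) x
  · rintro (rfl | ⟨i, rfl⟩)
    · exact ladder.one_mem_EG
    · exact ⟨row i, rfl⟩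

theorem EG_countable : ladder.EG.Countable := by
  rw [EG_eq]
  exact (Set.countable_singleton _).union (Set.countable_range _)

theorem EG_infinite : ladder.EG.Infinite := by
  rw [EG_eq]
  exact (Set.infinite_range_of_injective qr_injective).mono Set.subset_union_right

theorem mk_FG : Cardinal.mk ladder.FG = Cardinal.continuum := by
  rcases BRW.FG_dichotomy irreducible with h | h
  · exfalso
    have h1 : ladder.FG.Infinite := EG_infinite.mono ladder.EG_subset_FG
    rw [h] at h1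
    exact h1 (by simp)
  · exact h

theorem mk_diff : Cardinal.mk ↥(ladder.FG \ ladder.EG) = Cardinal.continuum := by
  refine le_antisymm (BRW.mk_FG_le _) ?_
  by_contra hlt
  push Not at hlt
  have h1 : Cardinal.mk ladder.FG ≤ Cardinal.mk ↥(ladder.FG \ ladder.EG) + Cardinal.mk ladder.EG := by
    refine le_trans ?_ (Cardinal.mk_union_le _ _)
    refine Cardinal.mk_le_mk_of_subset fun z hz => ?_
    by_cases h : z ∈ ladder.EG
    · exact Or.inr h
    · exact Or.inl ⟨hz, h⟩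
  have h2 : Cardinal.mk ladder.EG < Cardinal.continuum :=
    lt_of_le_of_lt EG_countable.le_aleph0 Cardinal.aleph0_lt_continuum
  have h3 := Cardinal.add_lt_of_lt Cardinal.aleph0_le_continuum hlt h2
  rw [mk_FG] at h1
  exact absurd h1 (not_le.2 h3)

end Q294.Branch.Ladder
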