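import Pool.Agent.Q294.BRW.Tools
import Pool.Agent.Q294.BRW.Defs2

/-!
# A branching random walk on the integers without local survival
-/

set_option autoImplicit false

namespace Q294.Branch.Line

open MeasureTheory ProbabilityTheory Filter Topology
open scoped ENNReal

theorem p_lt : (1 / 16 : ℝ≥0∞) < 1 := by
  rw [ENNReal.div_lt_iff (by norm_num) (by norm_num)]
  norm_num

/-- A particle at `x` has a child at `x + 1`, and with probability `1 / 16` also one at `x - 1`. -/
noncomputable def line : BRW ℤ where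
  law x := two (1 / 16) p_lt.le (Finsupp.single (x + 1) 1)
    (Finsupp.single (x + 1) 1 + Finsupp.single (x - 1) 1)

theorem law_cases {x : ℤ} {f : ℤ →₀ ℕ} (h : line.law x f ≠ 0) :
    f = Finsupp.single (x + 1) 1 ∨ f = Finsupp.single (x + 1) 1 + Finsupp.single (x - 1) 1 :=
  mem_of_two_ne_zero (hp := p_lt.le) h

theorem law_right (x : ℤ) :
    line.law x (Finsupp.single (x + 1) 1 + Finsupp.single (x - 1) 1) ≠ 0 :=
  two_apply_right_pos _ p_lt.le (by simp) _ _

theorem child {x : ℤ} {f : ℤ →₀ ℕ} (h : line.law x f ≠ 0) : f (x + 1) ≠ 0 := by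
  rcases law_cases h with rfl | rfl
  · simp
  · simp

theorem mean_up (x : ℤ) : 0 < line.mean x (x + 1) :=
  line.mean_pos (law_right x) (by simp)

theorem mean_down (x : ℤ) : 0 < line.mean x (x - 1) :=
  line.mean_pos (law_right x) (by simp)

theorem irreducible : line.Irreducible := by
  intro x y
  rcases le_total x y with h | h
  · obtain ⟨k, rfl⟩ : ∃ k : ℕ, y = x + k := ⟨(y - x).toNat, by omega⟩
    clear h
    induction k with
    | zero => simpa using Relation.ReflTransGen.refl
    | succ k ih =>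
      refine ih.tail ?_
      have := mean_up (x + k)
      rw [show x + ((k + 1 : ℕ) : ℤ) = x + k + 1 by push_cast; ring]
      exact this
  · obtain ⟨k, rfl⟩ : ∃ k : ℕ, y = x - k := ⟨(x - y).toNat, by omega⟩
    clear h
    induction k with
    | zero => simpa using Relation.ReflTransGen.refl
    | succ k ih =>
      refine ih.tail ?_
      have := mean_down (x - k)
      rw [show x - ((k + 1 : ℕ) : ℤ) = x - k - 1 by push_cast; ring]
      exact this

theorem nonSingular : line.NonSingular := by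
  refine ⟨0, _, law_right 0, ?_⟩
  have h := BRW.pair_add (Finsupp.single ((0 : ℤ) + 1) 1) (Finsupp.single ((0 : ℤ) - 1) 1)
    (fun _ => 1)
  rw [BRW.pair_single, BRW.pair_single] at h
  unfold BRW.pair at h
  simp only [mul_one] at h
  intro hcon
  have h2 : (((Finsupp.single ((0 : ℤ) + 1) 1 + Finsupp.single ((0 : ℤ) - 1) 1 : ℤ →₀ ℕ).sum
      fun _ k => k : ℕ) : ℝ≥0∞) = 1 := by rw [hcon]; simp
  rw [Finsupp.sum, Nat.cast_sum] at h2
  rw [Finsupp.sum] at h
  rw [h] at h2
  norm_num at h2

theorem isAut (t : ℤ) : line.IsAut (Equiv.addRight t) := by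
  intro x f
  have key : ∀ g : ℤ →₀ ℕ, Finsupp.equivMapDomain (Equiv.addRight t) f =
      Finsupp.equivMapDomain (Equiv.addRight t) g ↔ f = g := by
    intro g
    constructor
    · intro h
      ext y
      have := DFunLike.congr_fun h (y + t)
      simpa [Finsupp.equivMapDomain_apply] using this
    · rintro rfl; rfl
  have e1 : Finsupp.single (x + t + 1) 1 =
      Finsupp.equivMapDomain (Equiv.addRight t) (Finsupp.single (x + 1) 1) := by
    rw [Finsupp.equivMapDomain_single]
    congr 1
    simp [Equiv.addRight]; ring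
  have e2 : Finsupp.single (x + t - 1) 1 =
      Finsupp.equivMapDomain (Equiv.addRight t) (Finsupp.single (x - 1) 1) := by
    rw [Finsupp.equivMapDomain_single]
    congr 1
    simp [Equiv.addRight]; ring
  have e3 : Finsupp.single (x + t + 1) 1 + Finsupp.single (x + t - 1) 1 =
      Finsupp.equivMapDomain (Equiv.addRight t)
        (Finsupp.single (x + 1) 1 + Finsupp.single (x - 1) 1) := by
    rw [e1, e2]
    ext y
    rw [Finsupp.equivMapDomain_apply, Finsupp.add_apply, Finsupp.add_apply,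
      Finsupp.equivMapDomain_apply, Finsupp.equivMapDomain_apply]
  show two (1 / 16) p_lt.le (Finsupp.single (x + t + 1) 1)
    (Finsupp.single (x + t + 1) 1 + Finsupp.single (x + t - 1) 1) _ =
    two (1 / 16) p_lt.le (Finsupp.single (x + 1) 1)
    (Finsupp.single (x + 1) 1 + Finsupp.single (x - 1) 1) f
  unfold two
  rw [PMF.map_apply, PMF.map_apply]
  refine tsum_congr fun c => ?_
  cases c
  · simp only [Bool.false_eq_true, if_false]
    rw [e1]
    simp only [key]
  · simp only [if_true]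
    rw [e3]
    simp only [key]

theorem quasiTransitive : line.QuasiTransitive := by
  refine ⟨{0}, fun x => ⟨0, by simp, Equiv.addRight x, isAut x, by simp⟩⟩

theorem M_eq (v : ℤ → ℝ≥0∞) (x : ℤ) : line.M v x = v (x + 1) + 1 / 16 * v (x - 1) := by
  unfold BRW.M
  have h := tsum_two (1 / 16) p_lt.le (Finsupp.single (x + 1) 1)
    (Finsupp.single (x + 1) 1 + Finsupp.single (x - 1) 1) fun f => BRW.pair f v
  rw [BRW.pair_add, BRW.pair_single, BRW.pair_single] at h
  refine h.trans ?_
  rw [mul_add, ← add_assoc, ← add_mul, tsub_add_cancel_of_le p_lt.le, one_mul]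

/-- The weight. -/
noncomputable def wt (m y : ℤ) : ℝ≥0∞ := ENNReal.ofReal ((4 : ℝ) ^ (m - y))

theorem M_wt (m x : ℤ) : line.M (wt m) x ≤ 1 / 2 * wt m x := by
  rw [M_eq]
  unfold wt
  have h4 : (4 : ℝ) ≠ 0 := by norm_num
  have e1 : (4 : ℝ) ^ (m - (x + 1)) = 1 / 4 * (4 : ℝ) ^ (m - x) := by
    rw [show m - (x + 1) = (m - x) + (-1) by ring, zpow_add₀ h4]
    norm_num; ring
  have e2 : (4 : ℝ) ^ (m - (x - 1)) = 4 * (4 : ℝ) ^ (m - x) := by
    rw [show m - (x - 1) = (m - x) + 1 by ring, zpow_add₀ h4]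
    norm_num; ring
  have hpos : (0 : ℝ) ≤ (4 : ℝ) ^ (m - x) := by positivity
  have h16 : (1 / 16 : ℝ≥0∞) = ENNReal.ofReal (1 / 16) := by
    rw [ENNReal.ofReal_div_of_pos (by norm_num)]; simp
  have h2 : (1 / 2 : ℝ≥0∞) = ENNReal.ofReal (1 / 2) := by
    rw [ENNReal.ofReal_div_of_pos (by norm_num)]; simp
  rw [h16, h2, ← ENNReal.ofReal_mul (by norm_num), ← ENNReal.ofReal_mul (by norm_num),
    ← ENNReal.ofReal_add (by positivity) (by positivity)]
  refine ENNReal.ofReal_le_ofReal ?_
  rw [e1, e2]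
  linarith

theorem q_bddAbove {A : Set ℤ} (hA : BddAbove A) (x : ℤ) : line.q x A = 1 := by
  obtain ⟨m, hm⟩ := hA
  refine line.q_eq_one_of_decay (v := wt m) (fun y hy => ?_) (c := 1 / 2) ?_ (M_wt m) ?_
  · unfold wt
    rw [← ENNReal.ofReal_one]
    refine ENNReal.ofReal_le_ofReal (one_le_zpow₀ (by norm_num) ?_)
    have := hm hy
    omega
  · rw [ENNReal.div_lt_iff (by norm_num) (by norm_num)]
    norm_num
  · exact ENNReal.ofReal_ne_top

theorem pop_right (x : ℤ) (n : ℕ) {ω : Om ℤ} (h : ∀ n : ℕ, ∀ p : ℤ × ℕ, line.law p.1 (ω n p) ≠ 0) :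
    pop x n ω (x + n) ≠ 0 := by
  induction n with
  | zero => simp [pop]
  | succ n ih =>
    show next (pop x n ω) (ω n) (x + ((n + 1 : ℕ) : ℤ)) ≠ 0
    refine BRW.next_ne_zero (BRW.mem_cells_zero ih) ?_
    have := child (h n (x + n, 0))
    rw [show x + ((n + 1 : ℕ) : ℤ) = x + n + 1 by push_cast; ring]
    exact this

theorem q_not_bddAbove {A : Set ℤ} (hA : ¬ BddAbove A) (x : ℤ) : line.q x A = 0 := by
  refine line.q_eq_zero_of_ae ?_
  filter_upwards [line.ae_supp] with ω hω hcon
  obtain ⟨N, hN⟩ := eventually_atTop.1 hcon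
  rw [not_bddAbove_iff] at hA
  obtain ⟨y, hy, hlt⟩ := hA (x + N)
  have h1 : x + ((y - x).toNat : ℤ) = y := by omega
  have h2 := pop_right x (y - x).toNat hω
  rw [h1] at h2
  exact h2 (hN _ (by omega) y hy)

theorem EG_eq : line.EG = {fun _ => 0, fun _ => 1} := by
  ext z
  constructor
  · rintro ⟨A, rfl⟩
    by_cases h : BddAbove A
    · right; funext x; exact q_bddAbove h x
    · left; funext x; exact q_not_bddAbove h x
  · rintro (rfl | rfl)
    · refine ⟨Set.univ, funext fun x => q_not_bddAbove ?_ x⟩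
      exact not_bddAbove_univ
    · exact line.one_mem_EG

theorem mk_diff : Cardinal.mk ↥(line.FG \ line.EG) = Cardinal.continuum := by
  refine le_antisymm (BRW.mk_FG_le _) ?_
  have h := BRW.le_mk_of_surj (S := line.FG \ line.EG) (c := 1 / 3) (d := 2 / 3) (by norm_num)
    (0 : ℤ) ?_
  · simpa using h
  · intro a ha
    obtain ⟨w, hw, hwa⟩ := line.exists_fixed_of_ext (fun x y => q_bddAbove (by simp) x) 0
      (a := a) ⟨by rw [q_not_bddAbove not_bddAbove_univ]; linarith [ha.1], by linarith [ha.2]⟩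
    refine ⟨w, ⟨hw, fun hE => ?_⟩, hwa⟩
    rw [EG_eq] at hE
    rcases hE with rfl | hE
    · linarith [ha.1]
    · rw [Set.mem_singleton_iff] at hE
      rw [hE] at hwa
      linarith [ha.2]

end Q294.Branch.Line
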