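import Pool.Agent.Q294.BRW.Gen

/-!
# The one-step formula for branching random walks
-/

set_option autoImplicit false

namespace Q294.Branch

open MeasureTheory ProbabilityTheory Filter Topology
open scoped ENNReal

variable {X : Type*}

instance : DiscreteMeasurableSpace (X →₀ ℕ) := ⟨fun _ => trivial⟩

/-- The sample space. -/
abbrev Om (X : Type*) := ℕ → X × ℕ → (X →₀ ℕ)

instance (b : BRW X) : IsProbabilityMeasure b.noise := by
  unfold BRW.noise; infer_instance

instance (b : BRW X) : IsProbabilityMeasure b.prob := by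
  unfold BRW.prob; infer_instance

/-- A function of the sample that depends only on the noise before time `n`. -/
def Past {α : Type*} (n : ℕ) (F : Om X → α) : Prop := ∀ ω ω', (∀ i < n, ω i = ω' i) → F ω = F ω'

theorem Past.mono {α : Type*} {n m : ℕ} (h : n ≤ m) {F : Om X → α} (hF : Past n F) : Past m F :=
  fun ω ω' hω => hF ω ω' fun i hi => hω i (hi.trans_le h)

theorem past_pop (x : X) (n : ℕ) : Past n (pop x n) := by
  induction n with
  | zero => intro ω ω' _; rfl
  | succ n ih =>
    intro ω ω' h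
    show next (pop x n ω) (ω n) = next (pop x n ω') (ω' n)
    rw [ih ω ω' fun i hi => h i (hi.trans (Nat.lt_succ_self n)), h n (Nat.lt_succ_self n)]

/-- The particles of a configuration. -/
noncomputable def cells (h : X →₀ ℕ) : Finset (X × ℕ) := by
  classical
  exact h.support.biUnion fun y => (Finset.range (h y)).image (Prod.mk y)

theorem mem_cells {h : X →₀ ℕ} {p : X × ℕ} : p ∈ cells h ↔ p.2 < h p.1 := by
  classical
  unfold cells
  simp only [Finset.mem_biUnion, Finsupp.mem_support_iff, Finset.mem_image, Finset.mem_range]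
  constructor
  · rintro ⟨y, _, i, hi, rfl⟩
    exact hi
  · intro hp
    exact ⟨p.1, by omega, p.2, hp, rfl⟩

theorem mem_cells' {h : X →₀ ℕ} {p : X × ℕ} :
    p ∈ cells h ↔ p.1 ∈ h.support ∧ p.2 ∈ Finset.range (h p.1) := by
  rw [mem_cells, Finsupp.mem_support_iff, Finset.mem_range]
  constructor
  · intro hp; exact ⟨by omega, hp⟩
  · intro hp; exact hp.2

theorem next_eq_sum (h : X →₀ ℕ) (ξ : X × ℕ → (X →₀ ℕ)) : next h ξ = ∑ p ∈ cells h, ξ p := by
  rw [Finset.sum_finset_product (cells h) h.support (fun y => Finset.range (h y))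
    fun p => mem_cells']
  rfl

theorem measurable_next [Countable X] (h : X →₀ ℕ) : Measurable (next h) := by
  have : next h = fun ξ => ∑ p ∈ cells h, ξ p := funext fun ξ => next_eq_sum h ξ
  rw [this]
  have : MeasurableAdd₂ (X →₀ ℕ) := ⟨Measurable.of_discrete⟩
  exact Finset.measurable_fun_sum _ fun p _ => measurable_pi_apply p

theorem measurable_pop [Countable X] (x : X) (n : ℕ) : Measurable (pop x n) := by
  induction n with
  | zero => exact measurable_const
  | succ n ih =>
    have h1 : Measurable fun p : (X →₀ ℕ) × (X × ℕ → (X →₀ ℕ)) => next p.1 p.2 :=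
      measurable_from_prod_countable_right fun h => measurable_next h
    exact h1.comp (ih.prodMk (measurable_pi_apply n))

/-- Past and present are independent. -/
theorem indep_past (b : BRW X) {n : ℕ} {α : Type*} [MeasurableSpace α] {F : Om X → α}
    (hF : Measurable F) (hP : Past n F) : IndepFun F (fun ω : Om X => ω n) b.prob := by
  classical
  have hi : iIndepFun (fun (i : ℕ) (ω : Om X) => ω i) b.prob :=
    iIndepFun_infinitePi (X := fun _ ξ => ξ) fun _ => measurable_id
  have hd : Disjoint (Finset.range n) {n} := by simp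
  have h2 := hi.indepFun_finset (Finset.range n) {n} hd fun i => measurable_pi_apply i
  let φ : ((i : Finset.range n) → X × ℕ → (X →₀ ℕ)) → α := fun g =>
    F fun i => if h : i ∈ Finset.range n then g ⟨i, h⟩ else fun _ => 0
  let ψ : ((i : ({n} : Finset ℕ)) → X × ℕ → (X →₀ ℕ)) → X × ℕ → (X →₀ ℕ) := fun g =>
    g ⟨n, Finset.mem_singleton_self n⟩
  have hφ : Measurable φ := by
    refine hF.comp (measurable_pi_lambda _ fun i => ?_)
    by_cases h : i ∈ Finset.range n
    · simp only [dif_pos h]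
      exact measurable_pi_apply _
    · simp only [dif_neg h]
      exact measurable_const
  have hψ : Measurable ψ := measurable_pi_apply _
  have h3 := h2.comp hφ hψ
  have e1 : (φ ∘ fun (ω : Om X) (i : Finset.range n) => ω i) = F := by
    funext ω
    refine hP _ _ fun i hi => ?_
    show (if h : i ∈ Finset.range n then ω i else fun _ => 0) = ω i
    rw [dif_pos (Finset.mem_range.2 hi)]
  rw [e1] at h3
  exact h3

theorem map_eval (b : BRW X) (n : ℕ) : b.prob.map (fun ω => ω n) = b.noise :=
  Measure.infinitePi_map_eval _ n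

/-- **One-step formula.** -/
theorem lintegral_step [Countable X] (b : BRW X) {n : ℕ} {H : Om X → (X →₀ ℕ)} (hH : Measurable H)
    (hHP : Past n H) {W : Om X → ℝ≥0∞} (hW : Measurable W) (hWP : Past n W)
    {Φ : (X →₀ ℕ) → (X × ℕ → (X →₀ ℕ)) → ℝ≥0∞} (hΦ : ∀ h, Measurable (Φ h)) :
    ∫⁻ ω, W ω * Φ (H ω) (ω n) ∂b.prob = ∫⁻ ω, W ω * (∫⁻ ξ, Φ (H ω) ξ ∂b.noise) ∂b.prob := by
  have hWH : Measurable fun ω => (W ω, H ω) := hW.prodMk hH
  have hev : Measurable fun ω : Om X => ω n := measurable_pi_apply n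
  have hind : IndepFun (fun ω => (W ω, H ω)) (fun ω : Om X => ω n) b.prob :=
    indep_past b hWH fun ω ω' h => Prod.ext (hWP ω ω' h) (hHP ω ω' h)
  have hmap := (indepFun_iff_map_prod_eq_prod_map_map hWH.aemeasurable hev.aemeasurable).1 hind
  have hΦ2 : Measurable fun p : (X →₀ ℕ) × (X × ℕ → (X →₀ ℕ)) => Φ p.1 p.2 :=
    measurable_from_prod_countable_right fun h => hΦ h
  have hm : Measurable fun p : (ℝ≥0∞ × (X →₀ ℕ)) × (X × ℕ → (X →₀ ℕ)) =>
      p.1.1 * Φ p.1.2 p.2 :=
    (measurable_fst.comp measurable_fst).mul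
      (hΦ2.comp ((measurable_snd.comp measurable_fst).prodMk measurable_snd))
  have h1 : ∫⁻ ω, W ω * Φ (H ω) (ω n) ∂b.prob =
      ∫⁻ p, p.1.1 * Φ p.1.2 p.2 ∂(b.prob.map fun ω => ((W ω, H ω), ω n)) := by
    rw [lintegral_map hm (hWH.prodMk hev)]
  rw [h1, hmap, map_eval, lintegral_prod _ hm.aemeasurable]
  rw [lintegral_map hm.lintegral_prod_right' hWH]
  refine lintegral_congr fun ω => ?_
  exact lintegral_const_mul _ (hΦ _)

/-- The value of `∏ z(y)^{f(y)}` as an extended nonnegative real. -/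
noncomputable def emon (z : X → ℝ) (f : X →₀ ℕ) : ℝ≥0∞ := ENNReal.ofReal (mon z f)

theorem measurable_emon [Countable X] (z : X → ℝ) : Measurable (emon z) :=
  Measurable.of_discrete

theorem mon_add (z : X → ℝ) (f g : X →₀ ℕ) : mon z (f + g) = mon z f * mon z g := by
  classical
  unfold mon
  exact Finsupp.prod_add_index' (fun _ => pow_zero _) fun _ _ _ => pow_add _ _ _

theorem mon_zero (z : X → ℝ) : mon z 0 = 1 := Finsupp.prod_zero_index

theorem mon_sum (z : X → ℝ) {ι : Type*} (s : Finset ι) (f : ι → X →₀ ℕ) :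
    mon z (∑ i ∈ s, f i) = ∏ i ∈ s, mon z (f i) := by
  classical
  induction s using Finset.induction_on with
  | empty => simp [mon_zero]
  | insert a s ha ih => rw [Finset.sum_insert ha, Finset.prod_insert ha, mon_add, ih]

theorem mon_mul (z w : X → ℝ) (f : X →₀ ℕ) : mon (fun x => z x * w x) f = mon z f * mon w f := by
  unfold mon Finsupp.prod
  rw [← Finset.prod_mul_distrib]
  exact Finset.prod_congr rfl fun y _ => mul_pow _ _ _

theorem mon_eq_prod_cells (z : X → ℝ) (f : X →₀ ℕ) : mon z f = ∏ p ∈ cells f, z p.1 := by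
  rw [Finset.prod_finset_product (cells f) f.support (fun y => Finset.range (f y))
    fun p => mem_cells']
  unfold mon Finsupp.prod
  refine Finset.prod_congr rfl fun y _ => ?_
  simp

theorem mon_single (z : X → ℝ) (x : X) : mon z (Finsupp.single x 1) = z x := by
  unfold mon
  rw [Finsupp.prod_single_index (h := fun y k => z y ^ k) (pow_zero _), pow_one]

namespace BRW

variable (b : BRW X)

theorem lintegral_law [Countable X] (x : X) (φ : (X →₀ ℕ) → ℝ≥0∞) :
    ∫⁻ f, φ f ∂(b.law x).toMeasure = ∑' f, b.law x f * φ f := by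
  rw [lintegral_countable']
  refine tsum_congr fun f => ?_
  rw [PMF.toMeasure_apply_singleton _ _ (measurableSet_singleton f), mul_comm]

theorem ofReal_G {z : X → ℝ} (hz : ∀ x, 0 ≤ z x) (h1 : ∀ x, z x ≤ 1) (x : X) :
    ENNReal.ofReal (b.G z x) = ∑' f, b.law x f * emon z f := by
  rw [G_def, ENNReal.ofReal_tsum_of_nonneg
    (fun f => mul_nonneg ENNReal.toReal_nonneg (mon_nonneg hz f)) (b.summable_G hz h1 x)]
  refine tsum_congr fun f => ?_
  rw [ENNReal.ofReal_mul ENNReal.toReal_nonneg, ENNReal.ofReal_toReal ((b.law x).apply_ne_top f)]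
  rfl

theorem lintegral_coord [Countable X] (p : X × ℕ) (φ : (X →₀ ℕ) → ℝ≥0∞) :
    ∫⁻ ξ, φ (ξ p) ∂b.noise = ∑' f, b.law p.1 f * φ f := by
  rw [← lintegral_law]
  have h := (measurePreserving_eval_infinitePi (fun p : X × ℕ => (b.law p.1).toMeasure) p)
  have h2 := h.lintegral_comp (f := φ) Measurable.of_discrete
  exact h2

theorem lintegral_emon_next [Countable X] {z : X → ℝ} (hz : ∀ x, 0 ≤ z x) (h1 : ∀ x, z x ≤ 1)
    (h : X →₀ ℕ) : ∫⁻ ξ, emon z (next h ξ) ∂b.noise = emon (b.G z) h := by
  classical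
  have hprod : ∀ ξ : X × ℕ → (X →₀ ℕ), emon z (next h ξ) = ∏ p ∈ cells h, emon z (ξ p) := by
    intro ξ
    unfold emon
    rw [next_eq_sum, mon_sum, ENNReal.ofReal_prod_of_nonneg fun p _ => mon_nonneg hz _]
  simp only [hprod]
  have hi : iIndepFun (fun (p : X × ℕ) (ξ : X × ℕ → (X →₀ ℕ)) => emon z (ξ p)) b.noise :=
    iIndepFun_infinitePi (X := fun _ f => emon z f) fun _ => Measurable.of_discrete
  rw [lintegral_prod_eq_prod_lintegral_of_indepFun (cells h) _ hi fun p =>
    (measurable_emon z).comp (measurable_pi_apply p)]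
  unfold emon
  rw [mon_eq_prod_cells, ENNReal.ofReal_prod_of_nonneg fun p _ => b.G_nonneg hz _]
  refine Finset.prod_congr rfl fun p _ => ?_
  rw [b.ofReal_G hz h1]
  exact b.lintegral_coord p (emon z)

/-- Generating function identity with a weight depending on the past. -/
theorem lintegral_emon_pop [Countable X] {z : X → ℝ} (hz : ∀ x, 0 ≤ z x) (h1 : ∀ x, z x ≤ 1)
    (x : X) (n : ℕ) {W : Om X → ℝ≥0∞} (hW : Measurable W) (hWP : Past n W) :
    ∫⁻ ω, W ω * emon z (pop x (n + 1) ω) ∂b.prob =
      ∫⁻ ω, W ω * emon (b.G z) (pop x n ω) ∂b.prob := by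
  have h := lintegral_step b (measurable_pop x n) (past_pop x n) hW hWP
    (Φ := fun h ξ => emon z (next h ξ))
    (fun h => (measurable_emon z).comp (measurable_next h))
  simp only [b.lintegral_emon_next hz h1] at h
  exact h

theorem iter_nonneg {z : X → ℝ} (hz : ∀ x, 0 ≤ z x) (n : ℕ) (x : X) : 0 ≤ b.G^[n] z x := by
  induction n generalizing x with
  | zero => exact hz x
  | succ n ih => rw [Function.iterate_succ_apply']; exact b.G_nonneg ih x

theorem iter_le_one {z : X → ℝ} (hz : ∀ x, 0 ≤ z x) (h1 : ∀ x, z x ≤ 1) (n : ℕ) (x : X) :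
    b.G^[n] z x ≤ 1 := by
  induction n generalizing x with
  | zero => exact h1 x
  | succ n ih =>
    rw [Function.iterate_succ_apply']; exact b.G_le_one (b.iter_nonneg hz n) ih x

/-- `E[z^{η_n}] = G^n(z)`. -/
theorem lintegral_emon [Countable X] {z : X → ℝ} (hz : ∀ x, 0 ≤ z x) (h1 : ∀ x, z x ≤ 1)
    (x : X) (n : ℕ) : ∫⁻ ω, emon z (pop x n ω) ∂b.prob = ENNReal.ofReal (b.G^[n] z x) := by
  induction n generalizing z with
  | zero =>
    have : ∀ ω : Om X, emon z (pop x 0 ω) = ENNReal.ofReal (z x) := fun ω => by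
      unfold emon
      rw [show pop x 0 ω = Finsupp.single x 1 from rfl, mon_single]
    simp [this]
  | succ n ih =>
    have h := b.lintegral_emon_pop hz h1 x n (W := fun _ => 1) measurable_const
      (fun _ _ _ => rfl)
    simp only [one_mul] at h
    rw [h, ih (b.G_nonneg hz) (b.G_le_one hz h1), Function.iterate_succ_apply]

/-- The mean operator. -/
noncomputable def M (b : BRW X) (v : X → ℝ≥0∞) (x : X) : ℝ≥0∞ :=
  ∑' f : X →₀ ℕ, b.law x f * f.sum fun y k => k * v y

/-- `<h, v> = ∑ h(y) v(y)`. -/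
noncomputable def pair (h : X →₀ ℕ) (v : X → ℝ≥0∞) : ℝ≥0∞ := h.sum fun y k => k * v y

theorem measurable_pair [Countable X] (v : X → ℝ≥0∞) : Measurable fun h : X →₀ ℕ => pair h v :=
  Measurable.of_discrete

theorem pair_add (f g : X →₀ ℕ) (v : X → ℝ≥0∞) : pair (f + g) v = pair f v + pair g v := by
  classical
  unfold pair
  exact Finsupp.sum_add_index' (fun _ => by simp) fun _ _ _ => by push_cast; ring

theorem pair_zero (v : X → ℝ≥0∞) : pair (0 : X →₀ ℕ) v = 0 := Finsupp.sum_zero_index

theorem pair_sum (v : X → ℝ≥0∞) {ι : Type*} (s : Finset ι) (f : ι → X →₀ ℕ) :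
    pair (∑ i ∈ s, f i) v = ∑ i ∈ s, pair (f i) v := by
  classical
  induction s using Finset.induction_on with
  | empty => simp [pair_zero]
  | insert a s ha ih => rw [Finset.sum_insert ha, Finset.sum_insert ha, pair_add, ih]

theorem pair_single (v : X → ℝ≥0∞) (x : X) : pair (Finsupp.single x 1) v = v x := by
  unfold pair
  rw [Finsupp.sum_single_index (by simp)]
  simp

theorem pair_eq_sum_cells (v : X → ℝ≥0∞) (f : X →₀ ℕ) : pair f v = ∑ p ∈ cells f, v p.1 := by
  rw [Finset.sum_finset_product (cells f) f.support (fun y => Finset.range (f y))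
    fun p => mem_cells']
  unfold pair Finsupp.sum
  refine Finset.sum_congr rfl fun y _ => ?_
  simp

theorem lintegral_pair_next [Countable X] (v : X → ℝ≥0∞) (h : X →₀ ℕ) :
    ∫⁻ ξ, pair (next h ξ) v ∂b.noise = pair h (b.M v) := by
  simp only [next_eq_sum, pair_sum]
  have hm : ∀ p ∈ cells h, Measurable fun ξ : X × ℕ → (X →₀ ℕ) => pair (ξ p) v := fun p _ =>
    (measurable_pair v).comp (measurable_pi_apply p)
  rw [lintegral_finsetSum (cells h) hm]
  rw [pair_eq_sum_cells]
  exact Finset.sum_congr rfl fun p _ => b.lintegral_coord p fun f => pair f v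

/-- Mean identity. -/
theorem lintegral_pair_pop [Countable X] (v : X → ℝ≥0∞) (x : X) (n : ℕ) :
    ∫⁻ ω, pair (pop x (n + 1) ω) v ∂b.prob = ∫⁻ ω, pair (pop x n ω) (b.M v) ∂b.prob := by
  have h := lintegral_step b (measurable_pop x n) (past_pop x n) (W := fun _ => 1)
    measurable_const (fun _ _ _ => rfl) (Φ := fun h ξ => pair (next h ξ) v)
    (fun h => (measurable_pair v).comp (measurable_next h))
  simp only [one_mul, b.lintegral_pair_next] at h
  exact h

end BRW

end Q294.Branch
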