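import Pool.Agent.Q294.BRW.Card

/-!
# Tools for examples of branching random walks
-/

set_option autoImplicit false

namespace Q294.Branch

open MeasureTheory ProbabilityTheory Filter Topology
open scoped ENNReal

variable {X : Type*}

/-- The law with value `g1` with probability `p` and `g0` with probability `1 - p`. -/
noncomputable def two {α : Type*} (p : ℝ≥0∞) (hp : p ≤ 1) (g0 g1 : α) : PMF α :=
  (PMF.ofFintype (fun c : Bool => if c then p else 1 - p) (by simp [hp])).map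
    fun c => if c then g1 else g0

theorem tsum_two {α : Type*} (p : ℝ≥0∞) (hp : p ≤ 1) (g0 g1 : α) (φ : α → ℝ≥0∞) :
    ∑' f, two p hp g0 g1 f * φ f = (1 - p) * φ g0 + p * φ g1 := by
  classical
  have h1 : ∀ f, two p hp g0 g1 f * φ f =
      ∑ c : Bool, if f = (if c then g1 else g0) then (if c then p else 1 - p) * φ f else 0 := by
    intro f
    unfold two
    rw [PMF.map_apply, tsum_fintype, Finset.sum_mul]
    refine Finset.sum_congr rfl fun c _ => ?_
    rw [ite_mul, zero_mul]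
    simp
  rw [tsum_congr h1, Summable.tsum_finsetSum fun _ _ => ENNReal.summable]
  have h2 : ∀ c : Bool, ∑' f, (if f = (if c then g1 else g0) then
      (if c then p else 1 - p) * φ f else 0) =
      (if c then p else 1 - p) * φ (if c then g1 else g0) := by
    intro c
    rw [tsum_eq_single (if c then g1 else g0)]
    · simp
    · intro f hf
      rw [if_neg hf]
  simp only [h2]
  simp [add_comm]

theorem two_apply_left_pos {α : Type*} (p : ℝ≥0∞) (hp : p < 1) (g0 g1 : α) :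
    two p hp.le g0 g1 g0 ≠ 0 := by
  rw [← PMF.mem_support_iff]
  unfold two
  rw [PMF.support_map]
  refine ⟨false, ?_, by simp⟩
  rw [PMF.mem_support_iff, PMF.ofFintype_apply]
  simp only [Bool.false_eq_true, if_false]
  exact (tsub_pos_of_lt hp).ne'

theorem two_apply_right_pos {α : Type*} (p : ℝ≥0∞) (hp : p ≤ 1) (hp0 : p ≠ 0) (g0 g1 : α) :
    two p hp g0 g1 g1 ≠ 0 := by
  rw [← PMF.mem_support_iff]
  unfold two
  rw [PMF.support_map]
  refine ⟨true, ?_, by simp⟩
  rw [PMF.mem_support_iff, PMF.ofFintype_apply]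
  simpa using hp0

theorem mem_of_two_ne_zero {α : Type*} {p : ℝ≥0∞} {hp : p ≤ 1} {g0 g1 f : α}
    (h : two p hp g0 g1 f ≠ 0) : f = g0 ∨ f = g1 := by
  rw [← PMF.mem_support_iff] at h
  unfold two at h
  rw [PMF.support_map] at h
  obtain ⟨c, -, rfl⟩ := h
  cases c
  · left; simp
  · right; simp

namespace BRW

variable (b : BRW X)

/-- Almost surely all offspring configurations lie in the supports of the offspring laws. -/
theorem ae_supp [Countable X] : ∀ᵐ ω ∂b.prob, ∀ n : ℕ, ∀ p : X × ℕ, b.law p.1 (ω n p) ≠ 0 := by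
  rw [ae_all_iff]; intro n
  rw [ae_all_iff]; intro p
  have h1 : MeasurePreserving (fun ω : Om X => ω n) b.prob b.noise :=
    measurePreserving_eval_infinitePi (fun _ : ℕ => b.noise) n
  have h2 : MeasurePreserving (fun ξ : X × ℕ → (X →₀ ℕ) => ξ p) b.noise (b.law p.1).toMeasure :=
    measurePreserving_eval_infinitePi (fun p : X × ℕ => (b.law p.1).toMeasure) p
  have h3 := h2.comp h1
  have h4 : ∀ᵐ f ∂(b.law p.1).toMeasure, b.law p.1 f ≠ 0 := by
    rw [ae_iff, PMF.toMeasure_apply_eq_zero_iff _ MeasurableSet.of_discrete]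
    rw [Set.disjoint_left]
    intro f hf hf'
    exact hf' ((PMF.mem_support_iff _ _).1 hf)
  exact h3.quasiMeasurePreserving.ae h4

theorem mean_pos {x y : X} {f : X →₀ ℕ} (h : b.law x f ≠ 0) (hy : f y ≠ 0) : 0 < b.mean x y := by
  unfold mean
  refine lt_of_lt_of_le ?_ (ENNReal.le_tsum f)
  have : ((f y : ℕ) : ℝ≥0∞) ≠ 0 := by exact_mod_cast hy
  exact pos_iff_ne_zero.2 (mul_ne_zero h this)

theorem measurable_visit [Countable X] (x : X) (A : Set X) (n : ℕ) :
    MeasurableSet {ω : Om X | ∃ y ∈ A, pop x n ω y ≠ 0} :=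
  (measurable_pop x n) (MeasurableSet.of_discrete (s := {h : X →₀ ℕ | ∃ y ∈ A, h y ≠ 0}))

/-- First moment bound for the probability of a visit. -/
theorem prob_visit_le [Countable X] (A : Set X) (v : X → ℝ≥0∞) (hv : ∀ y ∈ A, 1 ≤ v y) (x : X)
    (n : ℕ) : b.prob {ω : Om X | ∃ y ∈ A, pop x n ω y ≠ 0} ≤ ∫⁻ ω, pair (pop x n ω) v ∂b.prob := by
  rw [← lintegral_indicator_one (measurable_visit x A n)]
  refine lintegral_mono fun ω => ?_
  by_cases h : ω ∈ {ω : Om X | ∃ y ∈ A, pop x n ω y ≠ 0}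
  · rw [Set.indicator_of_mem h]
    obtain ⟨y, hy, hy0⟩ := h
    unfold pair Finsupp.sum
    refine le_trans ?_ (Finset.single_le_sum (f := fun y => ((pop x n ω y : ℕ) : ℝ≥0∞) * v y)
      (fun _ _ => zero_le) (Finsupp.mem_support_iff.2 hy0))
    have h1 : (1 : ℝ≥0∞) ≤ ((pop x n ω y : ℕ) : ℝ≥0∞) := by
      exact_mod_cast Nat.one_le_iff_ne_zero.2 hy0
    calc (1 : ℝ≥0∞) = 1 * 1 := (mul_one 1).symm
      _ ≤ _ := mul_le_mul' h1 (hv y hy)
  · rw [Set.indicator_of_notMem h]
    exact zero_le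

theorem pair_mono (h : X →₀ ℕ) {v w : X → ℝ≥0∞} (hvw : ∀ y, v y ≤ w y) : pair h v ≤ pair h w :=
  Finset.sum_le_sum fun y _ => mul_le_mul_right (hvw y) _

theorem pair_smul (h : X →₀ ℕ) (c : ℝ≥0∞) (v : X → ℝ≥0∞) :
    pair h (fun y => c * v y) = c * pair h v := by
  unfold pair Finsupp.sum
  rw [Finset.mul_sum]
  exact Finset.sum_congr rfl fun y _ => by ring

theorem pair_add_right (h : X →₀ ℕ) (v w : X → ℝ≥0∞) :
    pair h (fun y => v y + w y) = pair h v + pair h w := by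
  unfold pair Finsupp.sum
  rw [← Finset.sum_add_distrib]
  exact Finset.sum_congr rfl fun y _ => by ring

/-- Exponential decay of a first moment. -/
theorem lintegral_pair_le [Countable X] {v : X → ℝ≥0∞} {c : ℝ≥0∞} (hM : ∀ x, b.M v x ≤ c * v x)
    (x : X) (n : ℕ) : ∫⁻ ω, pair (pop x n ω) v ∂b.prob ≤ c ^ n * v x := by
  induction n with
  | zero =>
    have : ∀ ω : Om X, pair (pop x 0 ω) v = v x := fun ω => pair_single v x
    simp [this]
  | succ n ih =>
    rw [lintegral_pair_pop]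
    calc ∫⁻ ω, pair (pop x n ω) (b.M v) ∂b.prob ≤ ∫⁻ ω, pair (pop x n ω) (fun y => c * v y) ∂b.prob :=
          lintegral_mono fun ω => pair_mono _ hM
      _ = c * ∫⁻ ω, pair (pop x n ω) v ∂b.prob := by
          simp only [pair_smul]
          exact lintegral_const_mul _ ((measurable_pair v).comp (measurable_pop x n))
      _ ≤ c * (c ^ n * v x) := mul_le_mul_right ih c
      _ = c ^ (n + 1) * v x := by ring

theorem q_eq_one_of_ae {x : X} {A : Set X}
    (h : ∀ᵐ ω ∂b.prob, ∀ᶠ n in atTop, ∀ y ∈ A, pop x n ω y = 0) : b.q x A = 1 := by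
  unfold q
  rw [measureReal_def]
  have h1 : b.prob {ω : Om X | ∀ᶠ n in atTop, ∀ y ∈ A, pop x n ω y = 0} = b.prob Set.univ :=
    measure_congr (by
      filter_upwards [h] with ω hω
      exact propext ⟨fun _ => trivial, fun _ => hω⟩)
  rw [h1, measure_univ, ENNReal.toReal_one]

theorem q_eq_zero_of_ae {x : X} {A : Set X}
    (h : ∀ᵐ ω ∂b.prob, ¬ ∀ᶠ n in atTop, ∀ y ∈ A, pop x n ω y = 0) : b.q x A = 0 := by
  unfold q
  rw [measureReal_def]
  have h1 : b.prob {ω : Om X | ∀ᶠ n in atTop, ∀ y ∈ A, pop x n ω y = 0} = b.prob ∅ :=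
    measure_congr (by
      filter_upwards [h] with ω hω
      exact propext ⟨fun h' => (hω h').elim, fun h' => h'.elim⟩)
  rw [h1, measure_empty, ENNReal.toReal_zero]

theorem q_congr_of_ae {x : X} {A B : Set X}
    (h : ∀ᵐ ω ∂b.prob, (∀ᶠ n in atTop, ∀ y ∈ A, pop x n ω y = 0) ↔
      ∀ᶠ n in atTop, ∀ y ∈ B, pop x n ω y = 0) : b.q x A = b.q x B := by
  unfold q
  rw [measureReal_def, measureReal_def]
  have h1 : b.prob {ω : Om X | ∀ᶠ n in atTop, ∀ y ∈ A, pop x n ω y = 0} =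
      b.prob {ω : Om X | ∀ᶠ n in atTop, ∀ y ∈ B, pop x n ω y = 0} :=
    measure_congr (by
      filter_upwards [h] with ω hω
      exact propext hω)
  rw [h1]

/-- Extinction in `A` from a summable first moment. -/
theorem q_eq_one_of_decay [Countable X] {A : Set X} {v : X → ℝ≥0∞} (hv : ∀ y ∈ A, 1 ≤ v y)
    {c : ℝ≥0∞} (hc : c < 1) (hM : ∀ x, b.M v x ≤ c * v x) {x : X} (hx : v x ≠ ∞) : b.q x A = 1 := by
  refine b.q_eq_one_of_ae ?_
  have hs : ∑' n, b.prob {ω : Om X | ∃ y ∈ A, pop x n ω y ≠ 0} ≠ ∞ := by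
    refine ne_top_of_le_ne_top ?_ (ENNReal.tsum_le_tsum fun n =>
      (b.prob_visit_le A v hv x n).trans (b.lintegral_pair_le hM x n))
    rw [ENNReal.tsum_mul_right, ENNReal.tsum_geometric]
    refine ENNReal.mul_ne_top ?_ hx
    exact ENNReal.inv_ne_top.2 (tsub_pos_of_lt hc).ne'
  filter_upwards [ae_eventually_notMem hs] with ω hω
  filter_upwards [hω] with n hn y hy
  by_contra hne
  exact hn ⟨y, hy, hne⟩

/-- Children of a particle are present in the next generation. -/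
theorem next_ne_zero {h : X →₀ ℕ} {ξ : X × ℕ → (X →₀ ℕ)} {p : X × ℕ} (hp : p ∈ cells h) {y : X}
    (hy : ξ p y ≠ 0) : next h ξ y ≠ 0 := by
  rw [next_eq_sum, Finsupp.finsetSum_apply]
  intro h0
  exact hy (Finset.sum_eq_zero_iff.1 h0 p hp)

theorem exists_of_next_ne_zero {h : X →₀ ℕ} {ξ : X × ℕ → (X →₀ ℕ)} {y : X}
    (hy : next h ξ y ≠ 0) : ∃ p ∈ cells h, ξ p y ≠ 0 := by
  rw [next_eq_sum, Finsupp.finsetSum_apply] at hy
  obtain ⟨p, hp, hp0⟩ := Finset.exists_ne_zero_of_sum_ne_zero hy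
  exact ⟨p, hp, hp0⟩

theorem mem_cells_zero {h : X →₀ ℕ} {y : X} (hy : h y ≠ 0) : (y, 0) ∈ cells h :=
  mem_cells.2 (Nat.pos_of_ne_zero hy)

end BRW

end Q294.Branch
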